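import Pool.Agent.Q276.KZ.UB

set_option autoImplicit false

/-! Project KZ: the lower bound. -/

namespace Pool.Agent.Q276.KZ

open MeasureTheory Filter Finset
open Pool.Agent.Q276.CD

section
variable {e C3 T k : ℝ} {J : ℕ} {K b : ℕ → ℕ}

/-- the mollifier factors -/
lemma Dr_mol (hPRM : P_PRM) (h : Su e C3 T k J K b) (hT : T ^ e ≤ (y2 T : ℝ)) (z : ℝ) (s : ℂ) :
    Dr (mu0 (b 0) * fQ b J (QE z K)) (y2 T) s =
      Dr (mu0 (b 0)) (y2 T) s * Dr (fQ b J (QE z K)) (y2 T) s := by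
  refine (hPRM b J (QE z K) K (y2 T) (by have := h.b0; omega) h.mono ?_ (h.len1 hT)).2.2.2 s
  intro j _ m hm
  unfold QE
  rw [if_neg (by omega)]

lemma norm_hh_ge {n : ℕ} (hn : 1 ≤ n) {w : ℂ} (hw : (n : ℝ) / 10 < ‖w‖) : 1 ≤ ‖hh n w‖ := by
  unfold hh
  rw [norm_pow]
  refine one_le_pow₀ ?_
  have hn0 : (0:ℝ) < n := by exact_mod_cast hn
  rw [norm_div, norm_mul, Complex.norm_natCast, one_le_div hn0]
  have : ‖(10:ℂ)‖ = 10 := by norm_num
  rw [this]
  linarith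

/-- the pointwise lower bound -/
lemma pointwise_low {C : ℝ} (hC : 0 ≤ C)
    (hPL : ∀ (k : ℝ) (J : ℕ) (K : ℕ → ℕ) (P : ℕ → ℂ) (Z M : ℂ), 0 < k → k ≤ 1 →
      ∑ j ∈ range (J + 1), Real.exp (-(K j : ℝ)) ≤ k ^ 2 / 2 → (∀ j ≤ J, ‖P j‖ ≤ (K j : ℝ) / 10) → ‖M‖ ≤ 1 / k →
      ‖Z * M * ∏ j ∈ range (J + 1), ex (K j) ((k - 1 : ℝ) * P j) - ∏ j ∈ range (J + 1), ex (K j) ((k : ℝ) * P j)‖ ≤
        1 / 2 * ‖∏ j ∈ range (J + 1), ex (K j) ((k : ℝ) * P j)‖ →
      (1 - C * k * Real.log (2 / k)) * ‖∏ j ∈ range (J + 1), ex (K j) ((k : ℝ) * P j)‖ ^ 2 ≤ ‖Z‖ ^ (2 * k))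
    (hPR : P_PR) (hPRM : P_PRM) (h : Su e C3 T k J K b) (he : 0 < e) (he1 : e ≤ 1 / 2)
    (hT : T ^ e ≤ (y2 T : ℝ)) (s : ℂ) :
    (1 - C * k * Real.log (2 / k)) * ‖Dr (fQ b J (QE k K)) (y2 T) s‖ ^ 2 ≤
      ‖ZZ T s‖ ^ (2 * k) + ∑ i ∈ range (J + 1), ‖Dr (fQ b J (QL k K i)) (y2 T) s‖ ^ 2 +
      4 * ‖ZZ T s * Dr (mu0 (b 0) * fQ b J (QE (k - 1) K)) (y2 T) s - Dr (fQ b J (QE k K)) (y2 T) s‖ ^ 2 +
      k ^ 2 * ‖Dr (mu0 (b 0) * fQ b J (QE k K)) (y2 T) s‖ ^ 2 := by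
  have hk0 := h.k0
  have hl := log2k hk0 h.k1
  have hCy : 0 ≤ C * k * Real.log (2 / k) := by positivity
  set A := Dr (fQ b J (QE k K)) (y2 T) s with hA
  have h1 : (1 - C * k * Real.log (2 / k)) * ‖A‖ ^ 2 ≤ ‖A‖ ^ 2 := by
    have : 0 ≤ ‖A‖ ^ 2 := sq_nonneg _
    nlinarith
  have p1 : 0 ≤ ‖ZZ T s‖ ^ (2 * k) := Real.rpow_nonneg (norm_nonneg _) _
  have p2 : 0 ≤ ∑ i ∈ range (J + 1), ‖Dr (fQ b J (QL k K i)) (y2 T) s‖ ^ 2 := sum_nonneg fun _ _ => sq_nonneg _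
  set D := ZZ T s * Dr (mu0 (b 0) * fQ b J (QE (k - 1) K)) (y2 T) s - A with hD
  have p3 : 0 ≤ 4 * ‖D‖ ^ 2 := by positivity
  have p4 : 0 ≤ k ^ 2 * ‖Dr (mu0 (b 0) * fQ b J (QE k K)) (y2 T) s‖ ^ 2 := by positivity
  by_cases c1 : ∃ i ≤ J, (K i : ℝ) / 10 < ‖Pj b i s‖
  · obtain ⟨i, hi, hi2⟩ := c1
    have h2 : 1 ≤ K i := by
      have h3 := h.big i hi
      have h4 : (1:ℝ) ≤ 1 / e := by rw [le_div_iff₀ he]; linarith
      have h5 : (1:ℝ) ≤ K i := h4.trans h3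
      exact_mod_cast h5
    have h3 : ‖A‖ ^ 2 ≤ ‖Dr (fQ b J (QL k K i)) (y2 T) s‖ ^ 2 := by
      rw [Dr_QL hPR h hT k hi s, ← Dr_QE hPR h hT k s, norm_mul, mul_pow]
      exact le_mul_of_one_le_left (sq_nonneg _) (one_le_pow₀ (norm_hh_ge h2 hi2))
    have h4 : ‖Dr (fQ b J (QL k K i)) (y2 T) s‖ ^ 2 ≤ ∑ i ∈ range (J + 1), ‖Dr (fQ b J (QL k K i)) (y2 T) s‖ ^ 2 :=
      single_le_sum (f := fun i => ‖Dr (fQ b J (QL k K i)) (y2 T) s‖ ^ 2) (fun _ _ => sq_nonneg _)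
        (by rw [mem_range]; omega)
    linarith
  · push Not at c1
    by_cases c2 : 1 / k < ‖Dr (mu0 (b 0)) (y2 T) s‖
    · have h2 : ‖A‖ ^ 2 ≤ k ^ 2 * ‖Dr (mu0 (b 0) * fQ b J (QE k K)) (y2 T) s‖ ^ 2 := by
        rw [Dr_mol hPRM h hT, norm_mul, mul_pow, ← mul_assoc, ← mul_pow]
        refine le_mul_of_one_le_left (sq_nonneg _) (one_le_pow₀ ?_)
        have := mul_lt_mul_of_pos_left c2 hk0
        rw [mul_one_div_cancel hk0.ne'] at this
        exact this.le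
      linarith
    · push Not at c2
      by_cases c3 : 1 / 2 * ‖A‖ < ‖D‖
      · have h2 : ‖A‖ ^ 2 ≤ 4 * ‖D‖ ^ 2 := by
          have h3 : ‖A‖ ≤ 2 * ‖D‖ := by linarith
          have h4 := pow_le_pow_left₀ (norm_nonneg A) h3 2
          linarith [h4, mul_pow (2:ℝ) ‖D‖ 2]
        linarith
      · push Not at c3
        have h2 := hPL k J K (fun j => Pj b j s) (ZZ T s) (Dr (mu0 (b 0)) (y2 T) s) hk0 h.k1
          (h.err2 he he1) (fun j hj => c1 j hj) c2
        rw [← Dr_QE hPR h hT (k - 1) s, ← Dr_QE hPR h hT k s, mul_assoc, ← Dr_mol hPRM h hT] at h2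
        have h3 := h2 c3
        linarith

end

lemma ZZ_cont (T : ℝ) (z : ℂ) : Continuous fun t : ℝ => ZZ T (cl t + z) := by
  unfold ZZ Dp cl
  refine continuous_finsetSum _ fun n hn => ?_
  rw [mem_Icc] at hn
  refine continuous_const.mul ?_
  have hn0 : (n : ℂ) ≠ 0 := by exact_mod_cast (by omega : n ≠ 0)
  exact Continuous.const_cpow (by fun_prop) (Or.inl hn0)

lemma Dr_cont' (f : ArithmeticFunction ℝ) (Y : ℕ) (z : ℂ) : Continuous fun t : ℝ => Dr f Y (cl t + z) := by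
  unfold Dr Dp cl
  refine continuous_finsetSum _ fun n hn => ?_
  rw [mem_Icc] at hn
  refine continuous_const.mul ?_
  have hn0 : (n : ℂ) ≠ 0 := by exact_mod_cast (by omega : n ≠ 0)
  exact Continuous.const_cpow (by fun_prop) (Or.inl hn0)

/-- the shift is small -/
lemma dl_small {C5 C3 : ℝ} (hC5 : 1 ≤ C5) (hC3 : 1 ≤ C3) : ∀ᶠ T : ℝ in atTop, ∀ (e k : ℝ) (J : ℕ) (K b : ℕ → ℕ),
    Su e C3 T k J K b → 0 < e → 0 < dl C5 T k (K J) ∧ dl C5 T k (K J) ≤ 1 := by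
  have h1 : Tendsto (fun T : ℝ => 2 * C5 * C3 ^ 2 * Real.log T ^ (-(2 / 5) : ℝ)) atTop (nhds (2 * C5 * C3 ^ 2 * 0)) :=
    ((tendsto_rpow_neg_atTop (by norm_num : (0:ℝ) < 2 / 5)).comp Real.tendsto_log_atTop).const_mul _
  rw [mul_zero] at h1
  filter_upwards [h1.eventually_le_const zero_lt_one, eventually_gt_atTop (Real.exp 1)] with T hT hT1 e k J K b h he
  have hL : 1 < Real.log T := by
    rw [Real.lt_log_iff_exp_lt (by linarith [Real.exp_pos 1])]
    exact hT1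
  have hL0 : 0 < Real.log T := by linarith
  have hk0 := h.k0
  have hl := log2k hk0 h.k1
  have hKJ : (0:ℝ) < K J := by
    have := h.big J le_rfl
    have h1 : 0 < 1 / e := by positivity
    linarith
  refine ⟨by unfold dl; positivity, ?_⟩
  have h2 : Real.log (2 / k) ≤ 2 / k := by
    have := Real.log_le_sub_one_of_pos (x := 2 / k) (by positivity)
    linarith
  have h3 : (K J : ℝ) ^ 2 ≤ (C3 / k) ^ 2 := pow_le_pow_left₀ hKJ.le h.KJ 2
  have h4 : dl C5 T k (K J) ≤ C5 * (C3 / k) ^ 2 * (2 / k) / Real.log T := by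
    unfold dl
    refine div_le_div_of_nonneg_right ?_ hL0.le
    refine mul_le_mul ?_ h2 (by linarith) (by positivity)
    exact mul_le_mul_of_nonneg_left h3 (by linarith)
  refine h4.trans (le_trans ?_ hT)
  have h5 : (1 / k) ^ 3 ≤ Real.log T ^ ((3 / 5 : ℝ)) := by
    have h6 : 1 / k ≤ Real.log T ^ ((1 / 5 : ℝ)) := by
      rw [div_le_iff₀ hk0]
      have h7 := mul_le_mul_of_nonneg_left h.kT (Real.rpow_nonneg hL0.le (1 / 5 : ℝ))
      rw [← Real.rpow_add hL0] at h7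
      norm_num at h7
      norm_num
      linarith
    calc (1 / k) ^ 3 ≤ (Real.log T ^ ((1 / 5 : ℝ))) ^ 3 := pow_le_pow_left₀ (by positivity) h6 3
      _ = Real.log T ^ ((3 / 5 : ℝ)) := by
          rw [← Real.rpow_natCast, ← Real.rpow_mul hL0.le]; norm_num
  have h6 : C5 * (C3 / k) ^ 2 * (2 / k) / Real.log T = 2 * C5 * C3 ^ 2 * ((1 / k) ^ 3 * (Real.log T)⁻¹) := by
    field_simp
  rw [h6]
  refine mul_le_mul_of_nonneg_left ?_ (by positivity)
  calc (1 / k) ^ 3 * (Real.log T)⁻¹ ≤ Real.log T ^ ((3 / 5 : ℝ)) * (Real.log T)⁻¹ :=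
        mul_le_mul_of_nonneg_right h5 (inv_nonneg.mpr hL0.le)
    _ = Real.log T ^ (-(2 / 5) : ℝ) := by
        rw [← Real.rpow_neg_one, ← Real.rpow_add hL0]; norm_num

/-- small errors -/
lemma small_err {C : ℝ} (hC : 1 ≤ C) : ∀ᶠ T : ℝ in atTop, ∀ k : ℝ, Real.log T ^ (-(1 / 5) : ℝ) ≤ k → k ≤ 1 →
    (C * T ^ (-(1:ℝ) / 2)) ^ (2 * k) ≤ k ∧ T ^ ((4:ℝ) / 5) ≤ k * T := by
  have h1 : Tendsto (fun x : ℝ => x ^ (1 / 4 : ℝ) * Real.exp (-(1 * x))) atTop (nhds 0) := by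
    have := tendsto_rpow_mul_exp_neg_mul_atTop_nhds_zero (1 / 4 : ℝ) 1 one_pos
    refine this.congr fun x => ?_
    rw [neg_one_mul, one_mul]
  have h2 : Tendsto (fun T : ℝ => C ^ 2 * ((Real.log T ^ (4 / 5 : ℝ)) ^ (1 / 4 : ℝ) *
      Real.exp (-(1 * Real.log T ^ (4 / 5 : ℝ))))) atTop (nhds (C ^ 2 * 0)) := by
    refine (h1.comp ?_).const_mul _
    exact (tendsto_rpow_atTop (by norm_num : (0:ℝ) < 4 / 5)).comp Real.tendsto_log_atTop
  rw [mul_zero] at h2
  filter_upwards [h2.eventually_le_const zero_lt_one, eventually_gt_atTop (Real.exp 1)] with T hT hT1 k hk hk1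
  have hT0 : 0 < T := by linarith [Real.exp_pos 1]
  have hL : 1 < Real.log T := by
    rw [Real.lt_log_iff_exp_lt hT0]
    exact hT1
  have hL0 : 0 < Real.log T := by linarith
  have hk0 : 0 < k := lt_of_lt_of_le (Real.rpow_pos_of_pos hL0 _) hk
  constructor
  · rw [Real.mul_rpow (by linarith) (Real.rpow_nonneg hT0.le _), ← Real.rpow_mul hT0.le]
    have h3 : C ^ (2 * k) ≤ C ^ 2 := by
      rw [← Real.rpow_two]
      exact Real.rpow_le_rpow_of_exponent_le hC (by linarith)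
    have h4 : T ^ (-(1:ℝ) / 2 * (2 * k)) = Real.exp (-(k * Real.log T)) := by
      rw [Real.rpow_def_of_pos hT0]; ring_nf
    have h5 : Real.log T ^ (4 / 5 : ℝ) ≤ k * Real.log T := by
      have := mul_le_mul_of_nonneg_right hk hL0.le
      refine le_trans (le_of_eq ?_) this
      nth_rw 3 [← Real.rpow_one (Real.log T)]
      rw [← Real.rpow_add hL0]
      norm_num
    have h6 : Real.exp (-(k * Real.log T)) ≤ Real.exp (-(1 * Real.log T ^ (4 / 5 : ℝ))) :=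
      Real.exp_le_exp.mpr (by linarith)
    rw [h4]
    have h7 : (Real.log T ^ (4 / 5 : ℝ)) ^ (1 / 4 : ℝ) = Real.log T ^ (1 / 5 : ℝ) := by
      rw [← Real.rpow_mul hL0.le]; norm_num
    rw [h7] at hT
    have h8 : C ^ 2 * Real.exp (-(1 * Real.log T ^ (4 / 5 : ℝ))) ≤ Real.log T ^ (-(1 / 5) : ℝ) := by
      have h9 := mul_le_mul_of_nonneg_left hT (Real.rpow_nonneg hL0.le (-(1 / 5) : ℝ))
      rw [mul_one] at h9
      refine le_trans (le_of_eq ?_) h9
      have h10 : Real.log T ^ (-(1 / 5) : ℝ) * Real.log T ^ (1 / 5 : ℝ) = 1 := by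
        rw [← Real.rpow_add hL0]; norm_num
      calc C ^ 2 * Real.exp (-(1 * Real.log T ^ (4 / 5 : ℝ))) =
          (Real.log T ^ (-(1 / 5) : ℝ) * Real.log T ^ (1 / 5 : ℝ)) * (C ^ 2 * Real.exp (-(1 * Real.log T ^ (4 / 5 : ℝ)))) := by
            rw [h10]; ring
        _ = _ := by ring
    calc C ^ (2 * k) * Real.exp (-(k * Real.log T)) ≤ C ^ 2 * Real.exp (-(1 * Real.log T ^ (4 / 5 : ℝ))) :=
          mul_le_mul h3 h6 (Real.exp_pos _).le (by positivity)
      _ ≤ Real.log T ^ (-(1 / 5) : ℝ) := h8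
      _ ≤ k := hk
  · have h3 : T ^ ((4:ℝ) / 5) = T ^ (-(1 / 5) : ℝ) * T := by
      nth_rw 3 [← Real.rpow_one T]
      rw [← Real.rpow_add hT0]
      norm_num
    rw [h3]
    refine mul_le_mul_of_nonneg_right (le_trans ?_ hk) hT0.le
    exact Real.rpow_le_rpow_of_nonpos hL0 (by linarith [Real.log_le_sub_one_of_pos hT0]) (by norm_num)

theorem t_LB (hSU : P_SU) (hRN : P_RN) (hPR : P_PR) (hPRM : P_PRM) (hPL : P_PL) (hG1 : P_G1) (hLA : P_LA)
    (hLD : P_LD) (hHT : P_HT) (hZN : P_ZN) : P_LB := by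
  obtain ⟨e1, he1, C5, hC5, hG1⟩ := hG1
  obtain ⟨e2, he2, hLA⟩ := hLA
  obtain ⟨e3, he3, hLD⟩ := hLD
  obtain ⟨CP, hCP, hPL⟩ := hPL
  obtain ⟨CZ, hCZ, hZN⟩ := hZN
  set e : ℝ := min (min e1 e2) (min e3 (1 / 100)) with he
  have he0 : 0 < e := lt_min (lt_min he1 he2) (lt_min he3 (by norm_num))
  have hee1 : e ≤ e1 := (min_le_left _ _).trans (min_le_left _ _)
  have hee2 : e ≤ e2 := (min_le_left _ _).trans (min_le_right _ _)
  have hee3 : e ≤ e3 := (min_le_right _ _).trans (min_le_left _ _)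
  have hee4 : e ≤ 1 / 100 := (min_le_right _ _).trans (min_le_right _ _)
  obtain ⟨C3, hC3, hSU⟩ := hSU e he0
  obtain ⟨CG, hCG, hG1⟩ := hG1 e he0 hee1 C3 hC3
  obtain ⟨CA, hCA, hLA⟩ := hLA C5 hC5 e he0 hee2 C3 hC3
  obtain ⟨CD, hCD, hLD⟩ := hLD C5 hC5 e he0 hee3 C3 hC3
  obtain ⟨CR, hCR, hRN⟩ := hRN e he0 hee4 C3 hC3
  set A1 := CP + CA + 2 * CD + 8 * CG + CD + 4 with hA1
  have hA10 : 0 < A1 := by positivity
  set CT := A1 + CR + 2 with hCT
  refine ⟨CT, by positivity, ?_⟩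
  have hHev : ∀ᶠ T : ℝ in atTop, 2 ≤ T ^ ((1:ℝ) / 8) := (tendsto_rpow_atTop (by norm_num)).eventually_ge_atTop 2
  filter_upwards [hSU, hG1, hLA, hLD, hRN, hHT, pow_le_y2 (e := e) (by linarith), eventually_ge_atTop (4:ℝ),
    dl_small hC5 hC3, small_err (C := max 1 CZ) (le_max_left _ _), hHev]
    with T hSU hG1 hLA hLD hRN hHT hT hT4 hdl hse hH8 k hk hk1
  obtain ⟨J, K, b, hS⟩ := hSU k hk hk1
  have hG := hG1 k J K b hS
  have hA := hLA k J K b hS
  obtain ⟨hD1, hD2⟩ := hLD k J K b hS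
  obtain ⟨hW, -, -, -, -⟩ := hRN k J K b hS
  obtain ⟨hd0, hd1⟩ := hdl e k J K b hS he0
  have hk0 := hS.k0
  have hT0 : 0 < T := by linarith
  have hL0 : 0 < Real.log T := Real.log_pos (by linarith)
  obtain ⟨hs1, hs2⟩ := hse k hk hk1
  set y := k * Real.log (2 / k) with hy
  have hl2 := log2k hk0 hk1
  have hy0 : 0 ≤ y := by positivity
  have hky := ksq_le_y hk0 hk1
  have hky1 := k_le_y hk0 hk1
  rw [← hy] at hky hky1
  have hz := zeta_cl_cont
  have hzk : Continuous fun t : ℝ => ‖riemannZeta (cl t)‖ ^ (2 * k) :=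
    hz.norm.rpow_const fun _ => Or.inr (by linarith)
  set I := ∫ t in T..(2 * T), ‖riemannZeta (cl t)‖ ^ (2 * k) with hI
  have hI0 : 0 ≤ I := intervalIntegral.integral_nonneg (by linarith) fun t _ => Real.rpow_nonneg (norm_nonneg _) _
  have hLk : 0 < Real.log T ^ (k ^ 2) := Real.rpow_pos_of_pos hL0 _
  have e1 : CT * k * Real.log (2 / k) = CT * y := by rw [hy]; ring
  rw [e1]
  by_cases hbig : 1 ≤ CT * y
  · refine le_trans ?_ hI0
    exact mul_nonpos_of_nonpos_of_nonneg (by linarith) (by positivity)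
  push Not at hbig
  have hk2 : 2 * k ≤ 1 := by
    have h1 : 2 * y ≤ CT * y := by
      refine mul_le_mul_of_nonneg_right ?_ hy0
      rw [hCT]; linarith
    have h4 : 4 ≤ CT := by rw [hCT, hA1]; linarith
    have h5 : 4 * y ≤ CT * y := mul_le_mul_of_nonneg_right h4 hy0
    linarith
  set TW := T * WW k J b with hTW
  have hW0 : 0 < WW k J b := Real.exp_pos _
  have hW1 : 1 ≤ WW k J b := Real.one_le_exp (mul_nonneg (sq_nonneg k) (R1_nonneg _))
  have hTW0 : 0 < TW := by positivity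
  have hTTW : T ≤ TW := le_mul_of_one_le_right hT0.le hW1
  set Δ := dl C5 T k (K J) with hΔ
  set H := T ^ ((7:ℝ) / 8) with hH
  have hH0 : 0 ≤ H := Real.rpow_nonneg hT0.le _
  have hHT2 : H ≤ T / 2 := by
    have h1 : T = T ^ ((1:ℝ) / 8) * H := by
      rw [hH, ← Real.rpow_add hT0]
      norm_num
    have h2 : 2 * H ≤ T ^ ((1:ℝ) / 8) * H := mul_le_mul_of_nonneg_right hH8 hH0
    linarith
  -- the functions
  set fA : ℝ → ℝ := fun t => ‖Dr (fQ b J (QE k K)) (y2 T) (cl t + (Δ : ℂ))‖ ^ 2 with hfA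
  set fZ : ℝ → ℝ := fun t => ‖ZZ T (cl t + (Δ : ℂ))‖ ^ (2 * k) with hfZ
  set fL : ℕ → ℝ → ℝ := fun i t => ‖Dr (fQ b J (QL k K i)) (y2 T) (cl t + (Δ : ℂ))‖ ^ 2 with hfL
  set fG : ℝ → ℝ := fun t => ‖ZZ T (cl t + (Δ : ℂ)) * Dr (mu0 (b 0) * fQ b J (QE (k - 1) K)) (y2 T) (cl t + (Δ : ℂ)) -
    Dr (fQ b J (QE k K)) (y2 T) (cl t + (Δ : ℂ))‖ ^ 2 with hfG
  set fM : ℝ → ℝ := fun t => ‖Dr (mu0 (b 0) * fQ b J (QE k K)) (y2 T) (cl t + (Δ : ℂ))‖ ^ 2 with hfM
  have cA : Continuous fA := (Dr_cont' _ _ _).norm.pow 2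
  have cZ : Continuous fZ := (ZZ_cont T _).norm.rpow_const fun _ => Or.inr (by linarith)
  have cL : ∀ i, Continuous (fL i) := fun i => (Dr_cont' _ _ _).norm.pow 2
  have cG : Continuous fG := (((ZZ_cont T _).mul (Dr_cont' _ _ _)).sub (Dr_cont' _ _ _)).norm.pow 2
  have cM : Continuous fM := (Dr_cont' _ _ _).norm.pow 2
  have hpt : ∀ t, (1 - CP * y) * fA t ≤ fZ t + ∑ i ∈ range (J + 1), fL i t + 4 * fG t + k ^ 2 * fM t := by
    intro t
    have := pointwise_low hCP.le hPL hPR hPRM hS he0 (by linarith) hT (cl t + (Δ : ℂ))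
    rw [show CP * k * Real.log (2 / k) = CP * y by rw [hy]; ring] at this
    exact this
  have hord : T + H ≤ 2 * T - H := by linarith
  have hint : (1 - CP * y) * (∫ t in (T + H)..(2 * T - H), fA t) ≤ (∫ t in (T + H)..(2 * T - H), fZ t) +
      (∑ i ∈ range (J + 1), ∫ t in (T + H)..(2 * T - H), fL i t) + 4 * (∫ t in (T + H)..(2 * T - H), fG t) +
      k ^ 2 * (∫ t in (T + H)..(2 * T - H), fM t) := by
    have c1 : Continuous fun t => ∑ i ∈ range (J + 1), fL i t := continuous_finsetSum _ fun i _ => cL i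
    have cS : Continuous fun t => fZ t + ∑ i ∈ range (J + 1), fL i t := cZ.add c1
    have cG4 : Continuous fun t => 4 * fG t := continuous_const.mul cG
    have cS2 : Continuous fun t => fZ t + ∑ i ∈ range (J + 1), fL i t + 4 * fG t := cS.add cG4
    have cM4 : Continuous fun t => k ^ 2 * fM t := continuous_const.mul cM
    have cS3 : Continuous fun t => fZ t + ∑ i ∈ range (J + 1), fL i t + 4 * fG t + k ^ 2 * fM t := cS2.add cM4
    have i1 : ∫ t in (T + H)..(2 * T - H), (fZ t + ∑ i ∈ range (J + 1), fL i t) =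
        (∫ t in (T + H)..(2 * T - H), fZ t) + ∑ i ∈ range (J + 1), ∫ t in (T + H)..(2 * T - H), fL i t := by
      rw [intervalIntegral.integral_add (cZ.intervalIntegrable _ _) (c1.intervalIntegrable _ _),
        intervalIntegral.integral_finsetSum (fun i _ => (cL i).intervalIntegrable _ _)]
    have i2 : ∫ t in (T + H)..(2 * T - H), (fZ t + ∑ i ∈ range (J + 1), fL i t + 4 * fG t) =
        (∫ t in (T + H)..(2 * T - H), (fZ t + ∑ i ∈ range (J + 1), fL i t)) + 4 * ∫ t in (T + H)..(2 * T - H), fG t := by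
      rw [intervalIntegral.integral_add (cS.intervalIntegrable _ _) (cG4.intervalIntegrable _ _),
        intervalIntegral.integral_const_mul]
    have i3 : ∫ t in (T + H)..(2 * T - H), (fZ t + ∑ i ∈ range (J + 1), fL i t + 4 * fG t + k ^ 2 * fM t) =
        (∫ t in (T + H)..(2 * T - H), (fZ t + ∑ i ∈ range (J + 1), fL i t + 4 * fG t)) +
          k ^ 2 * ∫ t in (T + H)..(2 * T - H), fM t := by
      rw [intervalIntegral.integral_add (cS2.intervalIntegrable _ _) (cM4.intervalIntegrable _ _),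
        intervalIntegral.integral_const_mul]
    rw [← i1, ← i2, ← i3, ← intervalIntegral.integral_const_mul]
    refine intervalIntegral.integral_mono_on hord ((continuous_const.mul cA).intervalIntegrable _ _) ?_ fun t _ => hpt t
    exact cS3.intervalIntegrable _ _
  -- enlarging the intervals
  have enl : ∀ f : ℝ → ℝ, Continuous f → (∀ t, 0 ≤ f t) →
      ∫ t in (T + H)..(2 * T - H), f t ≤ ∫ t in (T / 2)..(4 * T), f t := by
    intro f hf hf0
    refine intervalIntegral.integral_mono_interval (by linarith) hord (by linarith) ?_ (hf.intervalIntegrable _ _)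
    exact Filter.Eventually.of_forall fun t => hf0 t
  have bL : (∑ i ∈ range (J + 1), ∫ t in (T + H)..(2 * T - H), fL i t) ≤ CD * k ^ 2 * TW :=
    (sum_le_sum fun i _ => enl _ (cL i) fun t => sq_nonneg _).trans hD1
  have bG : (∫ t in (T + H)..(2 * T - H), fG t) ≤ CG * k * TW := (enl _ cG fun t => sq_nonneg _).trans hG
  have bM : (∫ t in (T + H)..(2 * T - H), fM t) ≤ CD * Real.log (2 / k) * TW := (enl _ cM fun t => sq_nonneg _).trans hD2
  have bA : (1 - CA * y) * TW ≤ ∫ t in (T + H)..(2 * T - H), fA t := by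
    rw [show CA * k * Real.log (2 / k) = CA * y by rw [hy]; ring] at hA
    exact hA
  -- the partial sum and zeta
  have bZ : (∫ t in (T + H)..(2 * T - H), fZ t) ≤ I + k * T + k * T := by
    have h1 := hHT k Δ hk0 hk1 hd0 hd1
    have h2 : ∫ t in T..(2 * T), ‖ZZ T (cl t)‖ ^ (2 * k) ≤ ∫ t in T..(2 * T), (‖riemannZeta (cl t)‖ ^ (2 * k) + k) := by
      refine intervalIntegral.integral_mono_on (by linarith) ?_ ?_ fun t ht => ?_
      · have := ZZ_cont T 0
        simp only [add_zero] at this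
        exact (this.norm.rpow_const fun _ => Or.inr (by linarith)).intervalIntegrable _ _
      · exact (hzk.add continuous_const).intervalIntegrable _ _
      · have h3 := hZN T hT4 t ⟨by linarith [ht.1], by linarith [ht.2]⟩
        have h4 : ‖ZZ T (cl t)‖ ≤ ‖riemannZeta (cl t)‖ + max 1 CZ * T ^ (-(1:ℝ) / 2) := by
          have h5 : ‖ZZ T (cl t)‖ ≤ ‖riemannZeta (cl t)‖ + ‖riemannZeta (cl t) - ZZ T (cl t)‖ := by
            have := norm_sub_le (riemannZeta (cl t)) (riemannZeta (cl t) - ZZ T (cl t))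
            rwa [sub_sub_cancel] at this
          have h6 : CZ * T ^ (-(1:ℝ) / 2) ≤ max 1 CZ * T ^ (-(1:ℝ) / 2) :=
            mul_le_mul_of_nonneg_right (le_max_right _ _) (Real.rpow_nonneg hT0.le _)
          linarith
        have h5 : 0 ≤ max 1 CZ * T ^ (-(1:ℝ) / 2) :=
          mul_nonneg (le_trans zero_le_one (le_max_left _ _)) (Real.rpow_nonneg hT0.le _)
        calc ‖ZZ T (cl t)‖ ^ (2 * k) ≤ (‖riemannZeta (cl t)‖ + max 1 CZ * T ^ (-(1:ℝ) / 2)) ^ (2 * k) :=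
              Real.rpow_le_rpow (norm_nonneg _) h4 (by linarith)
          _ ≤ ‖riemannZeta (cl t)‖ ^ (2 * k) + (max 1 CZ * T ^ (-(1:ℝ) / 2)) ^ (2 * k) :=
              Real.rpow_add_le_add_rpow (norm_nonneg _) h5 (by linarith) hk2
          _ ≤ _ := by linarith
    have h3 : ∫ t in T..(2 * T), (‖riemannZeta (cl t)‖ ^ (2 * k) + k) = I + k * T := by
      rw [intervalIntegral.integral_add (hzk.intervalIntegrable _ _) (continuous_const.intervalIntegrable _ _),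
        intervalIntegral.integral_const, smul_eq_mul]
      ring
    rw [h3] at h2
    linarith
  -- conclusion
  have hCPy : CP * y ≤ 1 := by
    have : CP * y ≤ CT * y := by
      refine mul_le_mul_of_nonneg_right ?_ hy0
      rw [hCT, hA1]; linarith
    linarith
  have k1 : (1 - (CP + CA) * y) * TW ≤ (1 - CP * y) * (∫ t in (T + H)..(2 * T - H), fA t) := by
    have h1 := mul_le_mul_of_nonneg_left bA (by linarith : (0:ℝ) ≤ 1 - CP * y)
    refine le_trans ?_ h1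
    have h2 : (1 - (CP + CA) * y) ≤ (1 - CP * y) * (1 - CA * y) := by
      have : 0 ≤ CP * y * (CA * y) := by positivity
      nlinarith
    calc (1 - (CP + CA) * y) * TW ≤ ((1 - CP * y) * (1 - CA * y)) * TW := mul_le_mul_of_nonneg_right h2 hTW0.le
      _ = _ := by ring
  have k2 : CD * k ^ 2 * TW ≤ 2 * CD * y * TW := by
    refine mul_le_mul_of_nonneg_right ?_ hTW0.le
    nlinarith
  have k3 : 4 * (CG * k * TW) ≤ 8 * CG * y * TW := by
    have : 4 * (CG * k) ≤ 8 * CG * y := by nlinarith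
    calc 4 * (CG * k * TW) = 4 * (CG * k) * TW := by ring
      _ ≤ _ := mul_le_mul_of_nonneg_right this hTW0.le
  have k4 : k ^ 2 * (CD * Real.log (2 / k) * TW) ≤ CD * y * TW := by
    have h1 : k * y ≤ 1 * y := mul_le_mul_of_nonneg_right hk1 hy0
    have h2 : k ^ 2 * (CD * Real.log (2 / k)) = CD * (k * y) := by rw [hy]; ring
    calc k ^ 2 * (CD * Real.log (2 / k) * TW) = k ^ 2 * (CD * Real.log (2 / k)) * TW := by ring
      _ ≤ _ := by
        rw [h2]
        refine mul_le_mul_of_nonneg_right ?_ hTW0.le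
        refine mul_le_mul_of_nonneg_left (by linarith) hCD.le
  have k5 : k * T + k * T ≤ 4 * y * TW := by
    have h1 : k * T ≤ 2 * y * TW := by
      calc k * T ≤ (2 * y) * T := mul_le_mul_of_nonneg_right hky1 hT0.le
        _ ≤ _ := mul_le_mul_of_nonneg_left hTTW (by linarith)
    linarith
  have k6 : (1 - A1 * y) * TW ≤ I := by
    have h1 := k1.trans hint
    have h2 := mul_le_mul_of_nonneg_left bM (sq_nonneg k)
    have h3 := mul_le_mul_of_nonneg_left bG (by norm_num : (0:ℝ) ≤ 4)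
    have h4 : (1 - A1 * y) * TW = (1 - (CP + CA) * y) * TW - 2 * CD * y * TW - 8 * CG * y * TW - CD * y * TW - 4 * y * TW := by
      rw [hA1]; ring
    linarith
  have hA1y : A1 * y ≤ 1 := by
    have : A1 * y ≤ CT * y := by
      refine mul_le_mul_of_nonneg_right ?_ hy0
      rw [hCT]; linarith
    linarith
  refine le_trans ?_ k6
  have h1 : T * ((1 - CR * y) * Real.log T ^ (k ^ 2)) ≤ TW := by
    rw [show CR * k * Real.log (2 / k) = CR * y by rw [hy]; ring] at hW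
    exact mul_le_mul_of_nonneg_left hW hT0.le
  have h2 := mul_le_mul_of_nonneg_left h1 (by linarith : (0:ℝ) ≤ 1 - A1 * y)
  refine le_trans ?_ h2
  have h3 : 1 - CT * y ≤ (1 - A1 * y) * (1 - CR * y) := by
    have : 0 ≤ A1 * y * (CR * y) := by positivity
    rw [hCT]
    nlinarith
  calc (1 - CT * y) * (T * Real.log T ^ (k ^ 2)) ≤ ((1 - A1 * y) * (1 - CR * y)) * (T * Real.log T ^ (k ^ 2)) :=
        mul_le_mul_of_nonneg_right h3 (by positivity)
    _ = _ := by ring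

end Pool.Agent.Q276.KZ
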