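import Pool.Agent.Q276.KZ.UB
import Pool.Agent.Q276.KZ.LB
import Pool.Agent.Q276.CD.Tw3
import Pool.Agent.Q178.CD.Mvc
import Pool.Agent.Q178.CD.Sh
import Pool.Agent.Q251.CD.ZN
import Pool.Agent.Q175.KZ.Pr
import Pool.Agent.Q175.KZ.Blk
import Pool.Agent.Q175.KZ.Rg
import Pool.Agent.Q65.KZ.Fs
import Pool.Agent.Q65.KZ.Blk
import Pool.Agent.Q65.KZ.GL
import Pool.Agent.Q65.KZ.LC
import Pool.Agent.Q75.KZ.EX
import Pool.Agent.Q75.KZ.PL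
import Pool.Agent.Q75.KZ.RS
import Pool.Agent.Q75.KZ.TI
import Pool.Agent.Q102.KZ.HT
import Pool.Agent.Q195.KZ.LA
import Pool.Agent.Q195.KZ.UX
import Pool.Agent.Q198.KZ.D1
import Pool.Agent.Q198.KZ.G1
import Pool.Agent.Q198.KZ.UG
import Pool.Agent.Q203.KZ.HP
import Pool.Agent.Q203.KZ.RN
import Pool.Agent.Q203.KZ.SU
import Pool.Agent.Q251.KZ.DY
import Pool.Agent.Q251.KZ.FNG
import Pool.Agent.Q251.KZ.LD
import Pool.Agent.Q251.KZ.UY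

set_option autoImplicit false

/-!
Project KZ (helper276): assembly of the lemma jobs (helpers 65, 75, 102, 175, 195, 198, 203, 251).
-/

namespace Pool.Agent.Q276.KZ

open MeasureTheory Filter
open Pool.Agent.Q276.CD

theorem g_MVC : P_MVC := Pool.Agent.Q178.CD.t_MVC
theorem g_SH : P_SH := Pool.Agent.Q178.CD.t_SH
theorem g_ZN : P_ZN := Pool.Agent.Q251.CD.t_ZN
theorem g_UG : P_UG := Pool.Agent.Q198.KZ.t_UG (Pool.Agent.Q65.KZ.t_GS Pool.Agent.Q175.KZ.t_FAC)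
  Pool.Agent.Q175.KZ.t_FACM Pool.Agent.Q65.KZ.t_GL Pool.Agent.Q65.KZ.t_LC Pool.Agent.Q203.KZ.t_RN
theorem g_UX : P_UX := Pool.Agent.Q195.KZ.t_UX t_TW g_UG Pool.Agent.Q203.KZ.t_RN
  Pool.Agent.Q175.KZ.t_PRM Pool.Agent.Q65.KZ.t_FA
theorem g_UY : P_UY := Pool.Agent.Q251.KZ.t_UY Pool.Agent.Q65.KZ.t_FS Pool.Agent.Q65.KZ.t_GL
  Pool.Agent.Q65.KZ.t_LC Pool.Agent.Q175.KZ.t_PRM Pool.Agent.Q65.KZ.t_FA
theorem g_LD : P_LD := Pool.Agent.Q251.KZ.t_LD Pool.Agent.Q65.KZ.t_FS Pool.Agent.Q65.KZ.t_GL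
  Pool.Agent.Q65.KZ.t_LC Pool.Agent.Q175.KZ.t_PRM Pool.Agent.Q65.KZ.t_FA Pool.Agent.Q203.KZ.t_RN
theorem g_D1 : P_D1 := Pool.Agent.Q198.KZ.t_D1 Pool.Agent.Q175.KZ.t_FAC
  (Pool.Agent.Q65.KZ.t_GSG Pool.Agent.Q175.KZ.t_FAC) Pool.Agent.Q175.KZ.t_FACM
  Pool.Agent.Q65.KZ.t_GL Pool.Agent.Q65.KZ.t_LC
theorem g_G1 : P_G1 := Pool.Agent.Q198.KZ.t_G1 g_MVC g_SH g_ZN Pool.Agent.Q251.KZ.t_FNG g_UX g_UG
  Pool.Agent.Q75.KZ.t_RS Pool.Agent.Q175.KZ.t_RG g_D1 Pool.Agent.Q175.KZ.t_PRM Pool.Agent.Q65.KZ.t_FA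
theorem g_LA : P_LA := Pool.Agent.Q195.KZ.LA.t_LA g_MVC Pool.Agent.Q203.KZ.t_RN
  Pool.Agent.Q175.KZ.t_PRM Pool.Agent.Q65.KZ.t_FA
theorem g_HT : P_HT := Pool.Agent.Q102.KZ.t_HT Pool.Agent.Q203.KZ.t_HP
theorem g_UB : P_UB := t_UB Pool.Agent.Q203.KZ.t_SU Pool.Agent.Q203.KZ.t_RN Pool.Agent.Q175.KZ.t_PR
  g_UX g_UY Pool.Agent.Q75.KZ.t_PW
theorem g_LB : P_LB := t_LB Pool.Agent.Q203.KZ.t_SU Pool.Agent.Q203.KZ.t_RN Pool.Agent.Q175.KZ.t_PR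
  Pool.Agent.Q175.KZ.t_PRM Pool.Agent.Q75.KZ.t_PL g_G1 g_LA g_LD g_HT g_ZN

/-- The dyadic form. -/
theorem dyadic : ∃ C : ℝ, 0 < C ∧ ∀ᶠ T : ℝ in atTop, ∀ k : ℝ, Real.log T ^ (-(1 / 5) : ℝ) ≤ k → k ≤ 1 →
    |(∫ t in T..(2 * T), ‖riemannZeta (cl t)‖ ^ (2 * k)) - T * Real.log T ^ (k ^ 2)| ≤
      C * k * Real.log (2 / k) * (T * Real.log T ^ (k ^ 2)) := by
  obtain ⟨C1, hC1, h1⟩ := g_UB
  obtain ⟨C2, hC2, h2⟩ := g_LB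
  refine ⟨max C1 C2, lt_of_lt_of_le hC1 (le_max_left _ _), ?_⟩
  filter_upwards [h1, h2, eventually_gt_atTop (3 : ℝ)] with T hu hl hT k hk hk1
  have hLpos : 0 < Real.log T := Real.log_pos (by linarith)
  have hk0 : 0 < k := lt_of_lt_of_le (Real.rpow_pos_of_pos hLpos _) hk
  have hlog : 0 ≤ Real.log (2 / k) := Real.log_nonneg (by rw [le_div_iff₀ hk0]; linarith)
  have hP : 0 ≤ T * Real.log T ^ (k ^ 2) := by positivity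
  have hA := hu k hk hk1
  have hB := hl k hk hk1
  have e1 : C1 * k * Real.log (2 / k) ≤ max C1 C2 * k * Real.log (2 / k) := by
    gcongr
    exact le_max_left _ _
  have e2 : C2 * k * Real.log (2 / k) ≤ max C1 C2 * k * Real.log (2 / k) := by
    gcongr
    exact le_max_right _ _
  have f1 := mul_le_mul_of_nonneg_right e1 hP
  have f2 := mul_le_mul_of_nonneg_right e2 hP
  rw [abs_le]
  constructor
  · nlinarith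
  · nlinarith

/-- The moments of order at most two. -/
theorem main : ∃ C : ℝ, 0 < C ∧ ∀ x : ℝ, ∀ᶠ T : ℝ in atTop, ∀ β : ℝ, 0 < β → β ≤ 2 →
    |(∫ u in (0:ℝ)..1, ‖riemannZeta (1 / 2 + (x : ℂ) * Complex.I + (u : ℂ) * (T : ℂ) * Complex.I)‖ ^ β) -
      Real.log T ^ (β ^ 2 / 4)| ≤
      (C * β * Real.log (4 / β) + Real.log T ^ (-(1 / 7) : ℝ)) * Real.log T ^ (β ^ 2 / 4) := by
  obtain ⟨C, hC, h⟩ := Pool.Agent.Q251.KZ.t_DY dyadic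
  exact ⟨C, hC, fun x => Pool.Agent.Q75.KZ.t_TI x C hC (h x)⟩

end Pool.Agent.Q276.KZ
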