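import Pool.Agent.Q276.CD.Stm2

set_option autoImplicit false

/-!
Project KZ (helper276): moments of the Riemann zeta function of small order.
Definitions.

Notation of the docstrings: `L = log T`, `V = log L`, `k ∈ (0, 1]` (the order of the moment is `2k`),
`N = b (J+1)`, `W = exp (k² R1 N)`. The primes in `[b 0, N)` are cut into the blocks
`[b j, b (j+1))`, `0 ≤ j ≤ J`; the block `j` ends at about `T ^ (1 / K_j²)`, and polynomials of degree at
most `2 K_j` in the prime sum `P_j = PB (b j) (b (j+1))` of the block are used. From project CD: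
`R1 N = ∑_{p<N} 1/p`, `RL N = ∑_{p<N} log p / p`, `mf φ n = ∏_{p | n} φ p (v_p n)`,
`SS N h = ∑' over N-smooth n of h n / n` (`Sb N h`: summable), `Ob a b n` = number of prime factors of `n`
in `[a, b)` with multiplicity, `ek z p a = z^a / a!`, `tm m p a = (a+1)^m (6/5)^a`, `rr = 6/5`,
`cl t = 1/2 + it`, `Dp a Y s = ∑_{n ≤ Y} a n n^{-s}`, `Dr f Y` the same for an arithmetic function,
`y2 T = ⌊T^(1/20)⌋₊`, `NN T = ⌈8T⌉₊`, `ZZ T s = ∑_{n ≤ NN T} n^{-s}`.
-/

namespace Pool.Agent.Q276.KZ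

open MeasureTheory Filter Finset
open Pool.Agent.Q276.CD

/-- the sum of `p^{-s}` over the primes `a ≤ p < b` -/
noncomputable def PB (a b : ℕ) (s : ℂ) : ℂ :=
  ∑ p ∈ (Nat.primesBelow b).filter (fun p => a ≤ p), (p : ℂ) ^ (-s)

open Classical in
/-- the coefficients `∏_p 1/a_p! ∏_j Q j (Ω_j n)` of `∏_j ∑_m Q j m P_j^m / m!` -/
noncomputable def fQ (b : ℕ → ℕ) (J : ℕ) (Q : ℕ → ℕ → ℝ) : ArithmeticFunction ℝ :=
  ⟨fun n => if n ∈ Nat.smoothNumbers (b (J + 1)) ∧ Ob 0 (b 0) n = 0 then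
    mf (ek 1) n * ∏ j ∈ range (J + 1), Q j (Ob (b j) (b (j + 1)) n) else 0, by
    rw [if_neg]; rintro ⟨h, -⟩; exact (sm_iff.mp h).1 rfl⟩

/-- the truncated exponential of `z P_j` -/
noncomputable def QE (z : ℝ) (K : ℕ → ℕ) (j m : ℕ) : ℝ := if m ≤ K j then z ^ m else 0

/-- the power `(10 P_j / K_j) ^ K_j` -/
noncomputable def QH (K : ℕ → ℕ) (j m : ℕ) : ℝ :=
  if m = K j then (10 / (K j : ℝ)) ^ K j * ((K j).factorial : ℝ) else 0

/-- powers in the blocks `j ∈ c`, truncated exponentials in the other blocks -/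
noncomputable def QX (z : ℝ) (K : ℕ → ℕ) (c : Finset ℕ) (j m : ℕ) : ℝ :=
  if j ∈ c then QH K j m else QE z K j m

/-- `(10 P_i / K_i) ^ K_i` times the truncated exponential of `z P_i` in the block `i`, truncated
exponentials in the other blocks -/
noncomputable def QL (z : ℝ) (K : ℕ → ℕ) (i j m : ℕ) : ℝ :=
  if j = i then (if K i ≤ m ∧ m ≤ 2 * K i then
    (m.factorial : ℝ) * (10 / (K i : ℝ)) ^ K i * (z ^ (m - K i) / ((m - K i).factorial : ℝ)) else 0)
  else QE z K j m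

open Classical in
/-- the Moebius function restricted to the numbers composed of primes `< B` -/
noncomputable def mu0 (B : ℕ) : ArithmeticFunction ℝ :=
  ⟨fun n => if n ∈ Nat.smoothNumbers B then ((ArithmeticFunction.moebius n : ℤ) : ℝ) else 0, by simp⟩

/-- the zeta function as a real arithmetic function -/
noncomputable def zt : ArithmeticFunction ℝ := ((ArithmeticFunction.zeta : ArithmeticFunction ℕ) : ArithmeticFunction ℝ)

/-- truncated exponential -/
noncomputable def ex (K : ℕ) (w : ℂ) : ℂ := ∑ m ∈ range (K + 1), w ^ m / (m.factorial : ℂ)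

/-- the power `(10 w / K) ^ K` -/
noncomputable def hh (K : ℕ) (w : ℂ) : ℂ := (10 * w / (K : ℂ)) ^ K

/-- local values of `1 * (the coefficients of the exponential)` -/
noncomputable def pe (z : ℝ) (_p a : ℕ) : ℝ := ∑ i ∈ range (a + 1), z ^ i / (i.factorial : ℝ)

/-- the function with local values `φ` at the primes of the block `j` -/
noncomputable def blk (b : ℕ → ℕ) (j : ℕ) (φ : ℕ → ℕ → ℝ) (n : ℕ) : ℝ :=
  mf (fun p a => if b j ≤ p ∧ p < b (j + 1) then φ p a else 1) n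

/-- the function with local values `φ` at the primes below `b 0` -/
noncomputable def low (b : ℕ → ℕ) (φ : ℕ → ℕ → ℝ) (n : ℕ) : ℝ := mf (fun p a => if p < b 0 then φ p a else 1) n

/-- the part of `n` composed of the primes in `[u, v)` -/
noncomputable def prt (u v n : ℕ) : ℕ := ∏ p ∈ n.primeFactors.filter (fun p => u ≤ p ∧ p < v), p ^ n.factorization p

/-- the primes of the block `j` -/
def bp (b : ℕ → ℕ) (j : ℕ) : Finset ℕ := (Nat.primesBelow (b (j + 1))).filter (fun p => b j ≤ p)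

open Classical in
/-- the numbers in `[a, Y]` without prime factors `< N` -/
noncomputable def rgh (N a Y : ℕ) : Finset ℕ := (Icc a Y).filter (fun r => ∀ p : ℕ, p.Prime → p ∣ r → N ≤ p)

open Classical in
/-- the numbers in `[1, Y]` with a prime factor `≥ N` -/
noncomputable def nsm (N Y : ℕ) : Finset ℕ := (Icc 1 Y).filter (fun n => n ∉ Nat.smoothNumbers N)

/-- The data of the construction: `e` is small, `C3` large, `k` the order, `J + 1` blocks with the
boundaries `b 0 ≤ b 1 ≤ … ≤ b (J+1)` and the degrees `K 0 > K 1 > … > K J`. -/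
structure Su (e C3 T k : ℝ) (J : ℕ) (K b : ℕ → ℕ) : Prop where
  k0 : 0 < k
  k1 : k ≤ 1
  kT : Real.log T ^ (-(1 / 5) : ℝ) ≤ k
  b0 : 2 ≤ b 0
  b0l : 1 / k ^ 2 ≤ b 0
  b0u : (b 0 : ℝ) ≤ 1 / k ^ 2 + 3
  b10 : 10 ≤ b 1
  mono : ∀ j ≤ J, b j ≤ b (j + 1)
  var : ∀ j ≤ J, R1 (b (j + 1)) - R1 (b j) ≤ e * K j
  big : ∀ j ≤ J, 1 / e ≤ K j
  err : ∑ j ∈ range (J + 1), Real.exp (-((K j : ℝ) / 100)) ≤ k ^ 2
  len : (((4 ^ b 0 * ∏ j ∈ range (J + 1), b (j + 1) ^ (2 * K j) : ℕ)) : ℝ) ≤ T ^ e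
  lb : ∀ j ≤ J, Real.log (b (j + 1)) ≤ 2 * Real.log T / (K j : ℝ) ^ 2
  top : Real.log T / (K J : ℝ) ^ 2 ≤ Real.log (b (J + 1))
  KJ : (K J : ℝ) ≤ C3 / k

/-- the shift to the right of the critical line -/
noncomputable def dl (C5 T k : ℝ) (KJ : ℕ) : ℝ := C5 * (KJ : ℝ) ^ 2 * Real.log (2 / k) / Real.log T

/-- `W = exp (k² R1 N)` -/
noncomputable def WW (k : ℝ) (J : ℕ) (b : ℕ → ℕ) : ℝ := Real.exp (k ^ 2 * R1 (b (J + 1)))

end Pool.Agent.Q276.KZ
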