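import Pool.Agent.Q276.KZ.Stm

set_option autoImplicit false

/-! The Dirichlet polynomials as products over the blocks. -/

namespace Pool.Agent.Q276.KZ

open MeasureTheory Filter Finset
open Pool.Agent.Q276.CD

lemma sum_QE (z : ℝ) (K : ℕ → ℕ) (j : ℕ) (w : ℂ) {D : ℕ} (hD : K j ≤ D) :
    ∑ m ∈ range (D + 1), (QE z K j m : ℂ) * w ^ m / (m.factorial : ℂ) = ex (K j) ((z : ℝ) * w) := by
  unfold ex
  have h1 : ∑ m ∈ range (D + 1), (QE z K j m : ℂ) * w ^ m / (m.factorial : ℂ) =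
      ∑ m ∈ range (K j + 1), (QE z K j m : ℂ) * w ^ m / (m.factorial : ℂ) := by
    symm
    refine sum_subset (fun m hm => ?_) fun m _ hm => ?_
    · rw [mem_range] at hm ⊢; omega
    · rw [mem_range] at hm
      unfold QE
      rw [if_neg (by omega)]
      simp
  rw [h1]
  refine sum_congr rfl fun m hm => ?_
  rw [mem_range] at hm
  unfold QE
  rw [if_pos (by omega), mul_pow]
  push_cast
  ring

lemma hh_eq (w : ℂ) (n : ℕ) : (10 * w / (n : ℂ)) ^ n = (10 / (n : ℂ)) ^ n * w ^ n := by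
  rw [← mul_pow]
  congr 1
  ring

lemma sum_QH (K : ℕ → ℕ) (j : ℕ) (w : ℂ) {D : ℕ} (hD : K j ≤ D) :
    ∑ m ∈ range (D + 1), (QH K j m : ℂ) * w ^ m / (m.factorial : ℂ) = hh (K j) w := by
  rw [sum_eq_single (K j)]
  · unfold QH hh
    rw [if_pos rfl, mul_div_assoc, hh_eq]
    push_cast
    have h0 : ((K j).factorial : ℂ) ≠ 0 := by exact_mod_cast (K j).factorial_ne_zero
    field_simp
  · intro m _ hm
    unfold QH
    rw [if_neg hm]
    simp
  · intro hc
    rw [mem_range] at hc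
    omega

lemma sum_QL (z : ℝ) (K : ℕ → ℕ) (i : ℕ) (w : ℂ) {D : ℕ} (hD : 2 * K i ≤ D) :
    ∑ m ∈ range (D + 1), (QL z K i i m : ℂ) * w ^ m / (m.factorial : ℂ) = hh (K i) w * ex (K i) ((z : ℝ) * w) := by
  have h1 : ∑ m ∈ range (D + 1), (QL z K i i m : ℂ) * w ^ m / (m.factorial : ℂ) =
      ∑ m ∈ Ico (K i) (K i + (K i + 1)), (QL z K i i m : ℂ) * w ^ m / (m.factorial : ℂ) := by
    symm
    refine sum_subset (fun m hm => ?_) fun m _ hm => ?_
    · rw [mem_Ico] at hm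
      rw [mem_range]; omega
    · rw [mem_Ico] at hm
      unfold QL
      rw [if_pos rfl, if_neg (by omega)]
      simp
  rw [h1, sum_Ico_eq_sum_range]
  have h2 : K i + (K i + 1) - K i = K i + 1 := by omega
  rw [h2]
  unfold ex hh
  rw [mul_sum]
  refine sum_congr rfl fun m hm => ?_
  rw [mem_range] at hm
  unfold QL
  rw [if_pos rfl, if_pos (by omega)]
  have h3 : K i + m - K i = m := by omega
  rw [h3, mul_div_assoc, hh_eq, mul_pow, pow_add]
  push_cast
  have h0 : ((K i + m).factorial : ℂ) ≠ 0 := by exact_mod_cast (K i + m).factorial_ne_zero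
  have h4 : (m.factorial : ℂ) ≠ 0 := by exact_mod_cast m.factorial_ne_zero
  field_simp

section
variable {e C3 T k : ℝ} {J : ℕ} {K b : ℕ → ℕ}

lemma Su.b1 (h : Su e C3 T k J K b) {j : ℕ} (hj : j ≤ J) : 1 ≤ b (j + 1) := by
  have h1 : ∀ i, i ≤ J + 1 → b 0 ≤ b i := by
    intro i
    induction i with
    | zero => intro _; exact le_rfl
    | succ i ih => intro hi; exact (ih (by omega)).trans (h.mono i (by omega))
  have := h1 (j + 1) (by omega)
  have := h.b0
  omega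

/-- the length -/
lemma Su.len2 (h : Su e C3 T k J K b) (hT : T ^ e ≤ (y2 T : ℝ)) :
    4 ^ b 0 * ∏ j ∈ range (J + 1), b (j + 1) ^ (2 * K j) ≤ y2 T := by
  exact_mod_cast h.len.trans hT

lemma Su.len1 (h : Su e C3 T k J K b) (hT : T ^ e ≤ (y2 T : ℝ)) :
    4 ^ b 0 * ∏ j ∈ range (J + 1), b (j + 1) ^ K j ≤ y2 T := by
  refine (Nat.mul_le_mul_left _ (prod_le_prod' fun j hj => ?_)).trans (h.len2 hT)
  rw [mem_range] at hj
  exact Nat.pow_le_pow_right (h.b1 (by omega)) (by omega)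

lemma Su.len0 (h : Su e C3 T k J K b) (hT : T ^ e ≤ (y2 T : ℝ)) :
    ∏ j ∈ range (J + 1), b (j + 1) ^ K j ≤ y2 T :=
  (Nat.le_mul_of_pos_left _ (by positivity)).trans (h.len1 hT)

lemma Su.len3 (h : Su e C3 T k J K b) (hT : T ^ e ≤ (y2 T : ℝ)) :
    ∏ j ∈ range (J + 1), b (j + 1) ^ (2 * K j) ≤ y2 T :=
  (Nat.le_mul_of_pos_left _ (by positivity)).trans (h.len2 hT)

/-- the prime sum of the block -/
noncomputable def Pj (b : ℕ → ℕ) (j : ℕ) (s : ℂ) : ℂ := PB (b j) (b (j + 1)) s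

lemma Dr_QE (hPR : P_PR) (h : Su e C3 T k J K b) (hT : T ^ e ≤ (y2 T : ℝ)) (z : ℝ) (s : ℂ) :
    Dr (fQ b J (QE z K)) (y2 T) s = ∏ j ∈ range (J + 1), ex (K j) ((z : ℝ) * Pj b j s) := by
  rw [hPR b J (QE z K) K (y2 T) (by have := h.b0; omega) h.mono ?_ (h.len0 hT) s]
  · refine prod_congr rfl fun j _ => ?_
    exact sum_QE z K j _ le_rfl
  · intro j _ m hm
    unfold QE
    rw [if_neg (by omega)]

lemma Dr_QX (hPR : P_PR) (h : Su e C3 T k J K b) (hT : T ^ e ≤ (y2 T : ℝ)) (z : ℝ) (c : Finset ℕ) (s : ℂ) :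
    Dr (fQ b J (QX z K c)) (y2 T) s =
      ∏ j ∈ range (J + 1), if j ∈ c then hh (K j) (Pj b j s) else ex (K j) ((z : ℝ) * Pj b j s) := by
  rw [hPR b J (QX z K c) K (y2 T) (by have := h.b0; omega) h.mono ?_ (h.len0 hT) s]
  · refine prod_congr rfl fun j _ => ?_
    by_cases hj : j ∈ c
    · simp only [QX, if_pos hj]
      exact sum_QH K j _ le_rfl
    · simp only [QX, if_neg hj]
      exact sum_QE z K j _ le_rfl
  · intro j _ m hm
    unfold QX QH QE
    split_ifs <;> first | rfl | omega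

lemma Dr_QL (hPR : P_PR) (h : Su e C3 T k J K b) (hT : T ^ e ≤ (y2 T : ℝ)) (z : ℝ) {i : ℕ} (hi : i ≤ J) (s : ℂ) :
    Dr (fQ b J (QL z K i)) (y2 T) s =
      hh (K i) (Pj b i s) * ∏ j ∈ range (J + 1), ex (K j) ((z : ℝ) * Pj b j s) := by
  rw [hPR b J (QL z K i) (fun j => 2 * K j) (y2 T) (by have := h.b0; omega) h.mono ?_ (h.len3 hT) s]
  · have hm : i ∈ range (J + 1) := by rw [mem_range]; omega
    rw [← mul_prod_erase _ _ hm, ← mul_prod_erase (range (J + 1)) (fun j => ex (K j) ((z : ℝ) * Pj b j s)) hm, ← mul_assoc]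
    congr 1
    · exact sum_QL z K i _ le_rfl
    · refine prod_congr rfl fun j hj => ?_
      rw [mem_erase] at hj
      simp only [QL, if_neg hj.1]
      exact sum_QE z K j _ (by omega)
  · intro j _ m hm
    unfold QL QE
    split_ifs with h1 h2 h3
    · subst h1; omega
    · rfl
    · omega
    · rfl

end

lemma pow_le_y2 {e : ℝ} (he : e < 1 / 20) : ∀ᶠ T : ℝ in atTop, T ^ e ≤ (y2 T : ℝ) := by
  have h1 : ∀ᶠ T : ℝ in atTop, 2 ≤ T ^ (1 / 20 - e) :=
    (tendsto_rpow_atTop (by linarith)).eventually_ge_atTop 2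
  filter_upwards [h1, eventually_ge_atTop 1] with T h1 h2
  have hT : 0 < T := by linarith
  have h3 : T ^ ((1:ℝ) / 20) = T ^ (1 / 20 - e) * T ^ e := by rw [← Real.rpow_add hT]; ring_nf
  have h4 : (0:ℝ) < T ^ e := Real.rpow_pos_of_pos hT _
  have h5 : T ^ ((1:ℝ) / 20) - 1 < (y2 T : ℝ) := by
    unfold y2
    exact Nat.sub_one_lt_floor _
  have h6 : 2 * T ^ e ≤ T ^ ((1:ℝ) / 20) := by rw [h3]; exact mul_le_mul_of_nonneg_right h1 h4.le
  by_cases h7 : 1 ≤ T ^ e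
  · linarith
  · push Not at h7
    have h8 : (1:ℝ) ≤ (y2 T : ℝ) := by
      have : 1 ≤ y2 T := by
        unfold y2
        rw [Nat.one_le_floor_iff]
        exact Real.one_le_rpow h2 (by norm_num)
      exact_mod_cast this
    linarith

end Pool.Agent.Q276.KZ
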