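import Pool.Agent.Q276.KZ.Def

set_option autoImplicit false

/-!
Project KZ (helper276): the lemma jobs. See the file `Def` for the notation.
-/

namespace Pool.Agent.Q276.KZ

open MeasureTheory Filter Finset
open Pool.Agent.Q276.CD

/-! ## Algebra of the coefficients -/

/-- JOB PR: the Dirichlet polynomials are products of polynomials in the prime sums of the blocks.
Proof. `P^m = ∑_{Ω(n)=m, n composed of primes of the block} m! (∏_p 1/a_p!) n^{-s}` (multinomial theorem;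
`mf (ek 1) n = ∏ 1/a_p!`), the parts `n_j` of `n` in the blocks are coprime, and a number of the support has
at most `D j` prime factors `< b (j+1)` in the block `j`, so it is `≤ Y`. The case of one block is
`P_EXPO` of CD (`Q251/CD` or `Q276/CD/AllJ`). -/
def P_PR : Prop := ∀ (b : ℕ → ℕ) (J : ℕ) (Q : ℕ → ℕ → ℝ) (D : ℕ → ℕ) (Y : ℕ), 1 ≤ b 0 →
  (∀ j ≤ J, b j ≤ b (j + 1)) → (∀ j ≤ J, ∀ m, D j < m → Q j m = 0) →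
  ∏ j ∈ range (J + 1), b (j + 1) ^ D j ≤ Y → ∀ s : ℂ,
  Dr (fQ b J Q) Y s = ∏ j ∈ range (J + 1), ∑ m ∈ range (D j + 1),
    (Q j m : ℂ) * PB (b j) (b (j + 1)) s ^ m / (m.factorial : ℂ)

/-- JOB PRM: multiplication by the Euler factors of the small primes.
Proof. `mu0 (b 0) * fQ b J Q` is supported on `n = d m` with `d` squarefree composed of primes `< b 0`
(so `d ≤ primorial ≤ 4 ^ b 0`) and `m` in the support of `fQ` (so `m ≤ ∏ b (j+1) ^ D j`). Hence the product of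
the two Dirichlet polynomials has no term beyond `Y`. -/
def P_PRM : Prop := ∀ (b : ℕ → ℕ) (J : ℕ) (Q : ℕ → ℕ → ℝ) (D : ℕ → ℕ) (Y : ℕ), 1 ≤ b 0 →
  (∀ j ≤ J, b j ≤ b (j + 1)) → (∀ j ≤ J, ∀ m, D j < m → Q j m = 0) →
  4 ^ b 0 * ∏ j ∈ range (J + 1), b (j + 1) ^ D j ≤ Y →
  (∀ n, (mu0 (b 0) * fQ b J Q) n ≠ 0 → n ≤ 4 ^ b 0 * ∏ j ∈ range (J + 1), b (j + 1) ^ D j ∧
    n ∈ Nat.smoothNumbers (b (J + 1))) ∧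
  (∀ n, fQ b J Q n ≠ 0 → n ≤ ∏ j ∈ range (J + 1), b (j + 1) ^ D j ∧ n ∈ Nat.smoothNumbers (b (J + 1))) ∧
  (∀ n, mu0 (b 0) n ≠ 0 → n ≤ 4 ^ b 0) ∧
  ∀ s : ℂ, Dr (mu0 (b 0) * fQ b J Q) Y s = Dr (mu0 (b 0)) Y s * Dr (fQ b J Q) Y s

/-- JOB FAC: the convolution with `1` factors over the blocks. Proof: the divisors of `n` in the support of
`fQ` are the products of divisors of the coprime parts `prt (b j) (b (j+1)) n`; induction on `J`. -/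
def P_FAC : Prop := ∀ (b : ℕ → ℕ) (J : ℕ) (Q : ℕ → ℕ → ℝ), (∀ j ≤ J, b j ≤ b (j + 1)) → ∀ n : ℕ, n ≠ 0 →
  (fQ b J Q * zt) n = ∏ j ∈ range (J + 1), ∑ d ∈ (prt (b j) (b (j + 1)) n).divisors,
    mf (ek 1) d * Q j (Ob (b j) (b (j + 1)) d)

/-- JOB FACM: with the small primes removed. Proof: `mu0 (b 0) * zt` is the indicator function of the numbers
without prime factor `< b 0`, and `fQ` is supported on such numbers. -/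
def P_FACM : Prop := ∀ (b : ℕ → ℕ) (J : ℕ) (Q : ℕ → ℕ → ℝ), (∀ j ≤ J, b j ≤ b (j + 1)) → ∀ n : ℕ, n ≠ 0 →
  (mu0 (b 0) * fQ b J Q * zt) n = if Ob 0 (b 0) n = 0 then (fQ b J Q * zt) n else 0

/-- JOB GS: bounds for the convolution with `1`, for the vector of choices `c`.
Proof. By `P_FAC` the value is `∏_j g_j(n_j)`, `g_j(m) = ∑_{d | m} mf (ek 1) d * Q_j(Ω d)`, `Ω_j(m) = Ω_j(n)`.
Block `j ∉ c`, `Ω_j(n) ≤ K_j`: all `d | n_j` have `≤ K_j` prime factors, so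
`g_j = ∑_{d | n_j} mf (ek (k-1)) d = mf (pe (k-1)) n_j` (`mf (ek z) d = z^Ω(d) mf (ek 1) d`; multiplicativity).
Block `j ∉ c`, `Ω_j(n) > K_j`: `|g_j| ≤ ∑_{d | n_j} mf (ek 1) d = mf (pe 1) n_j ≤ ∏ (a+1)`, and
`1 ≤ rr^(Ω_j(n) - K_j)`, so `g_j² ≤ rr^(-K_j) mf (tm 2) n_j`. Block `j ∈ c`: with `m = K_j`,
`(10/m)^m m! ≤ 10^m = (1/4)^m 40^m`, so `|g_j| ≤ (1/4)^{K_j} ∑_{d | n_j} mf (ek 40) d = (1/4)^{K_j} mf (pe 40) n_j`. -/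
def P_GS : Prop := ∀ (b : ℕ → ℕ) (J : ℕ) (K : ℕ → ℕ) (k : ℝ) (c : Finset ℕ), (∀ j ≤ J, b j ≤ b (j + 1)) →
  0 ≤ k → k ≤ 1 → ∀ n : ℕ, n ≠ 0 →
  (fQ b J (QX (k - 1) K c) * zt) n ^ 2 ≤ ∏ j ∈ range (J + 1),
    if j ∈ c then (1 / 16) ^ K j * blk b j (fun p a => pe 40 p a ^ 2) n
    else blk b j (fun p a => pe (k - 1) p a ^ 2) n + rr⁻¹ ^ K j * blk b j (tm 2) n

/-- JOB GSG: the exact value at the good numbers. Proof: see the first case of `P_GS`. -/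
def P_GSG : Prop := ∀ (b : ℕ → ℕ) (J : ℕ) (K : ℕ → ℕ) (k : ℝ), (∀ j ≤ J, b j ≤ b (j + 1)) →
  ∀ n : ℕ, n ≠ 0 → (∀ j ≤ J, Ob (b j) (b (j + 1)) n ≤ K j) →
  (fQ b J (QE (k - 1) K) * zt) n = ∏ j ∈ range (J + 1), blk b j (pe (k - 1)) n

/-- JOB FS: bounds for the coefficients themselves: for `c ⊆ {0..J}` as in `QX k K c`, and for `QL k K i`.
Proof. `fQ` is supported on `N`-smooth numbers without prime factors `< b 0`, and factors over the blocks: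
`mf (ek 1) n = ∏_j mf (ek 1) n_j`. `QE`: `mf (ek 1) n_j * k^Ω(n_j) = mf (ek k) n_j`. `QH`: as in `P_GS`,
`≤ (1/4)^{K_j} mf (ek 40) n_j`. `QL i i`: for `K ≤ m ≤ 2K` one has `m!/(m-K)! ≤ (2K)^K`, so
`m! (10/K)^K k^{m-K}/(m-K)! ≤ 20^K k^{m-K} ≤ (1/2)^K 40^m`. -/
def P_FS : Prop := ∀ (b : ℕ → ℕ) (J : ℕ) (K : ℕ → ℕ) (k : ℝ), (∀ j ≤ J, b j ≤ b (j + 1)) →
  0 ≤ k → k ≤ 1 → ∀ n : ℕ,
  (∀ c : Finset ℕ, fQ b J (QX k K c) n ^ 2 ≤ low b (fun _ a => if a = 0 then 1 else 0) n *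
    ∏ j ∈ range (J + 1), if j ∈ c then (1 / 16) ^ K j * blk b j (fun p a => ek 40 p a ^ 2) n
      else blk b j (fun p a => ek k p a ^ 2) n) ∧
  (∀ i ≤ J, fQ b J (QL k K i) n ^ 2 ≤ low b (fun _ a => if a = 0 then 1 else 0) n *
    ∏ j ∈ range (J + 1), if j = i then (1 / 4) ^ K j * blk b j (fun p a => ek 40 p a ^ 2) n
      else blk b j (fun p a => ek k p a ^ 2) n)

/-- JOB FA: crude bounds for the coefficients (`|QE| ≤ 1`, `QH m ≤ 10^K`, `QL m ≤ 20^K 1^{..} ≤ 20^K`). -/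
def P_FA : Prop := ∀ (b : ℕ → ℕ) (J : ℕ) (K : ℕ → ℕ) (z : ℝ), |z| ≤ 1 → ∀ n : ℕ,
  (∀ c : Finset ℕ, |fQ b J (QX z K c) n| ≤ 10 ^ (∑ j ∈ range (J + 1), K j)) ∧
  (∀ i ≤ J, |fQ b J (QL z K i) n| ≤ 20 ^ (∑ j ∈ range (J + 1), K j)) ∧
  |fQ b J (QE z K) n| ≤ 1 ∧ |(mu0 (b 0) * fQ b J (QE z K)) n| ≤ 1

/-! ## Sums over smooth numbers -/

/-- JOB GL: the sum of a product over the blocks of sums of multiplicative functions, exactly.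
Proof. Expand the product of the finite sums (`Finset.prod_univ_sum`, or induction on `J`); for each vector of
options `n ↦ low ψ n * ∏_j blk b j (φ j o_j) n` is `mf` of the function with local values `ψ` (`p < b 0`) and
`φ j o_j` (`p` in the block `j`; `1_{a=0}` for `p ≥ b (J+1)`, which does not matter for smooth numbers); for it use
`CD.ep_main`. Local values at `a = 0` are `1`, so the convention for `mf` is harmless. -/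
def P_GL : Prop := ∀ (b : ℕ → ℕ) (J : ℕ) (O : Finset ℕ) (ψ : ℕ → ℕ → ℝ) (w : ℕ → ℕ → ℝ)
  (φ : ℕ → ℕ → ℕ → ℕ → ℝ), (∀ j ≤ J, b j ≤ b (j + 1)) → (∀ p, ψ p 0 = 1) → (∀ j o p, φ j o p 0 = 1) →
  (∀ p : ℕ, p.Prime → p < b 0 → Summable fun a : ℕ => |ψ p a| / (p : ℝ) ^ a) →
  (∀ j ≤ J, ∀ o ∈ O, ∀ p ∈ bp b j, Summable fun a : ℕ => |φ j o p a| / (p : ℝ) ^ a) →
  Sb (b (J + 1)) (fun n => |low b ψ n * ∏ j ∈ range (J + 1), ∑ o ∈ O, w j o * blk b j (φ j o) n|) ∧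
  SS (b (J + 1)) (fun n => low b ψ n * ∏ j ∈ range (J + 1), ∑ o ∈ O, w j o * blk b j (φ j o) n) =
    (∏ p ∈ Nat.primesBelow (b 0), ∑' a : ℕ, ψ p a / (p : ℝ) ^ a) *
    ∏ j ∈ range (J + 1), ∑ o ∈ O, w j o * ∏ p ∈ bp b j, ∑' a : ℕ, φ j o p a / (p : ℝ) ^ a

/-- JOB LC: local bounds. `q` stands for `p ^ (1 / log T)`, `1 ≤ q ≤ 101/100`, and `h` for `log q`.
Proof. Elementary: `pe (k-1) p 0 = 1`, `pe (k-1) p 1 = k`, `0 ≤ pe (k-1) p a ≤ 1` (alternating sums),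
`pe 40 p a ≤ e^40`, `ek 40 p a ≤ e^40`, geometric series of ratio `≤ 0.61`; `q ≤ 1 + 2 h` and `k ≤ 1`. -/
def P_LC : Prop := ∃ C : ℝ, 1 ≤ C ∧ ∀ p : ℕ, p.Prime → ∀ q : ℝ, 1 ≤ q → q ≤ 101 / 100 → ∀ k : ℝ, 0 ≤ k → k ≤ 1 →
  ((Summable fun a : ℕ => q ^ a / (p : ℝ) ^ a) ∧
    ∑' a : ℕ, q ^ a / (p : ℝ) ^ a ≤ Real.exp (1 / p + 2 * Real.log q / p + C / (p : ℝ) ^ 2)) ∧
  ((Summable fun a : ℕ => pe (k - 1) p a ^ 2 * q ^ a / (p : ℝ) ^ a) ∧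
    ∑' a : ℕ, pe (k - 1) p a ^ 2 * q ^ a / (p : ℝ) ^ a ≤
      Real.exp (k ^ 2 / p + 2 * Real.log q / p + C / (p : ℝ) ^ 2)) ∧
  ((Summable fun a : ℕ => tm 2 p a * q ^ a / (p : ℝ) ^ a) ∧
    ∑' a : ℕ, tm 2 p a * q ^ a / (p : ℝ) ^ a ≤ Real.exp (C / p)) ∧
  ((Summable fun a : ℕ => pe 40 p a ^ 2 * q ^ a / (p : ℝ) ^ a) ∧
    ∑' a : ℕ, pe 40 p a ^ 2 * q ^ a / (p : ℝ) ^ a ≤ Real.exp (C / p)) ∧
  ((Summable fun a : ℕ => ek 40 p a ^ 2 / (p : ℝ) ^ a) ∧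
    ∑' a : ℕ, ek 40 p a ^ 2 / (p : ℝ) ^ a ≤ Real.exp (C / p)) ∧
  ((Summable fun a : ℕ => ek k p a ^ 2 / (p : ℝ) ^ a) ∧
    ∑' a : ℕ, ek k p a ^ 2 / (p : ℝ) ^ a ≤ Real.exp (k ^ 2 / p)) ∧
  ((Summable fun a : ℕ => ek k p a ^ 2 * rr ^ a / (p : ℝ) ^ a) ∧
    ∑' a : ℕ, ek k p a ^ 2 * rr ^ a / (p : ℝ) ^ a ≤ Real.exp (rr * k ^ 2 / p))

/-! ## The set-up -/

/-- JOB SU: existence of the data.
Proof. Choose `C4` large (in terms of `e`), then `C3` large. `K 0 = ⌈V²⌉₊`, `K (j+1) = ⌈C4 log (K j)⌉₊`, and `J` is the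
first index with `K J ≤ C3 / k`. For `K j > C3 / k ≥ C3` one has `2 K (j+1) ≤ K j`, so `J` exists; if `J ≥ 1` then
`K J ≥ C4 log (C3 / k)`; if `J = 0` then `K J ≥ V²` while `log (1/k) ≤ V/5`. In both cases (for `T` large)
`K J ≥ 200 log (1/k) + 1000 + 1/e`, and `K (J-i) ≥ 2^i K J ≥ K J + 100 i`, hence `err` (geometric series).
`b 0 = ⌈1/k²⌉₊ + 2`, `b (j+1) = ⌊exp (L / K_j²)⌋₊ + 1`. `lb`: `log (exp x + 1) ≤ x + 1 ≤ 2x` for `x ≥ 1`; `top` clear.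
`b 0 ≤ b 1` and `10 ≤ b 1` since `1/k² ≤ L^(2/5)` and `L / K_0² → ∞`. `var`, `j = 0`:
`R1 (b 1) ≤ log log (b 1) + C ≤ V + C ≤ e K 0`. `var`, `j ≥ 1`: by `CD.R1_bd` (Mertens)
`R1 (b (j+1)) - R1 (b j) ≤ log (K_{j-1}²/K_j²) + C ≤ 2 log K_{j-1} + C ≤ (2/C4) K_j + C ≤ e K_j`.
`len`: the logarithm is `≤ (L^(2/5) + 3) log 4 + ∑_j 2 K_j · 2 L / K_j² ≤ o(L) + 8 L / K_J ≤ e L`. -/
def P_SU : Prop := ∀ e : ℝ, 0 < e → ∃ C3 : ℝ, 1 ≤ C3 ∧ ∀ᶠ T : ℝ in atTop, ∀ k : ℝ,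
  Real.log T ^ (-(1 / 5) : ℝ) ≤ k → k ≤ 1 → ∃ (J : ℕ) (K b : ℕ → ℕ), Su e C3 T k J K b

/-- JOB RN: `W` and `(log T)^{k²}`.
Proof. `R1 N ≤ log log N + C ≤ V + C` (`N ≤ T + 1` by `lb`), and `log N ≥ L / K_J²` gives
`R1 N ≥ V - 2 log K_J - C ≥ V - 2 log (C3/k) - C` by `CD.R1_bd`; multiply by `k²` and use
`|exp x - 1| ≤ C |x|` for bounded `x`; `k² log (2/k) ≤ k log (2/k)` is bounded. Last part: `R1 (b 0) ≤ log log (b 0) + C`. -/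
def P_RN : Prop := ∀ e : ℝ, 0 < e → e ≤ 1 / 100 → ∀ C3 : ℝ, 1 ≤ C3 → ∃ C : ℝ, 0 < C ∧ ∀ᶠ T : ℝ in atTop,
  ∀ (k : ℝ) (J : ℕ) (K b : ℕ → ℕ), Su e C3 T k J K b →
  (1 - C * k * Real.log (2 / k)) * Real.log T ^ (k ^ 2) ≤ WW k J b ∧
  WW k J b ≤ (1 + C * k ^ 2) * Real.log T ^ (k ^ 2) ∧
  Real.exp (R1 (b 0)) ≤ C * Real.log (2 / k) ∧
  Real.log T * Real.exp (-R1 (b (J + 1))) ≤ C * (K J : ℝ) ^ 2 ∧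
  (b (J + 1) : ℝ) ≤ T

/-- JOB UG: the sums for the twisted second moment.
Proof. `∑_{c ⊆ {0..J}} g_c² ≤ ∏_j (A_j + B_j + C_j)` by `P_GS` and `Finset.prod_add`, with
`A_j = blk (pe (k-1))²`, `B_j = rr^{-K_j} blk (tm 2)`, `C_j = 16^{-K_j} blk (pe 40)²`. For `N`-smooth `n`,
`n^{1/L} = low (q_p^a) n ∏_j blk b j (q_p^a) n` with `q_p = p^{1/L} ≤ 101/100` (as `log p ≤ log N ≤ 2 L / K_J²`).
Apply `P_GL` with the local values of `P_LC`: the sum is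
`≤ exp (∑_{p < b 0} (1/p + 2 log p/(pL) + C/p²)) ∏_j (exp (∑_{block} (k²/p + 2 log p/(pL) + C/p²)) + 2 exp (-K_j/6 + C e K_j))`
and with `e` small each factor is `≤ exp (∑_{block} …) (1 + exp (-K_j/100))`. Finally `RL N ≤ log N + C ≤ 3 L`,
`∑ 1/p² ≤ C`, `exp (R1 (b 0)) ≤ C log (2/k)`, `err`. For the second part only `c = ∅` and no small primes occur
(`P_FACM`). -/
def P_UG : Prop := ∃ e0 : ℝ, 0 < e0 ∧ ∀ e : ℝ, 0 < e → e ≤ e0 → ∀ C3 : ℝ, 1 ≤ C3 → ∃ C : ℝ, 0 < C ∧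
  ∀ᶠ T : ℝ in atTop, ∀ (k : ℝ) (J : ℕ) (K b : ℕ → ℕ), Su e C3 T k J K b →
  (Sb (b (J + 1)) (fun n => (∑ c ∈ (range (J + 1)).powerset, (fQ b J (QX (k - 1) K c) * zt) n ^ 2) *
      (n : ℝ) ^ (1 / Real.log T)) ∧
    SS (b (J + 1)) (fun n => (∑ c ∈ (range (J + 1)).powerset, (fQ b J (QX (k - 1) K c) * zt) n ^ 2) *
      (n : ℝ) ^ (1 / Real.log T)) ≤ C * Real.log (2 / k) * WW k J b) ∧
  (Sb (b (J + 1)) (fun n => (mu0 (b 0) * fQ b J (QE (k - 1) K) * zt) n ^ 2 * (n : ℝ) ^ (1 / Real.log T)) ∧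
    SS (b (J + 1)) (fun n => (mu0 (b 0) * fQ b J (QE (k - 1) K) * zt) n ^ 2 * (n : ℝ) ^ (1 / Real.log T)) ≤
      C * WW k J b)

/-- JOB UX: the mollified second moments.
Proof. Apply `CD.P_TW` (proved: `CD.t_TW`) with `G = ∅`, `N = b (J+1)`, `Y = y2 T` to each
`f = fQ b J (QX (k-1) K c)` (support: `P_PRM`, `len`), and to `mu0 (b 0) * fQ b J (QE (k-1) K)`:
`log T * SS (g²) + SS (g² log n) ≤ 2 log T * SS (g² n^{1/L})`, because `1 + log n / L ≤ n^{1/L}`; sum over `c` and use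
`P_UG` and `P_RN`. Error term: `∑ |f| ≤ T^{2e}` by `P_FA` and `len` (`10^{∑ K_j} ≤ ∏ b (j+1)^{K_j}`), the number of
`c` is `2^{J+1} ≤ T^e`, so the error is `≤ T^{1-η+5e} ≤ T^{1-η/2}` if `e0 ≤ η/10`; it is absorbed since
`log (2/k) ≥ log 2` and `K_J, W ≥ 1`. -/
def P_UX : Prop := ∃ e0 : ℝ, 0 < e0 ∧ ∀ e : ℝ, 0 < e → e ≤ e0 → ∀ C3 : ℝ, 1 ≤ C3 → ∃ C : ℝ, 0 < C ∧
  ∀ᶠ T : ℝ in atTop, ∀ (k : ℝ) (J : ℕ) (K b : ℕ → ℕ), Su e C3 T k J K b →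
  ∑ c ∈ (range (J + 1)).powerset, (∫ t in (T / 4)..(8 * T), ‖riemannZeta (cl t)‖ ^ 2 *
      ‖Dr (fQ b J (QX (k - 1) K c)) (y2 T) (cl t)‖ ^ 2) ≤ C * (K J : ℝ) ^ 2 * Real.log (2 / k) * (T * WW k J b) ∧
  ∫ t in (T / 4)..(8 * T), ‖riemannZeta (cl t)‖ ^ 2 *
      ‖Dr (mu0 (b 0) * fQ b J (QE (k - 1) K)) (y2 T) (cl t)‖ ^ 2 ≤ C * (K J : ℝ) ^ 2 * (T * WW k J b)

/-- JOB UY: the mean square of the tilt.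
Proof. `CD.P_MVC` (proved): `∫ ≤ T ∑ f(n)²/n + 4 Y (∑ |f|)²`, error `≤ T^{1/20 + 4e + …} ≤ T^{1/2}` as in `P_UX`.
`∑_c ∑_n f_c(n)²/n ≤ SS N (∑_c f_c²) ≤ ∏_j (exp (k² D_j) + exp (-2 K_j) )` by `P_FS`, `P_GL`, `P_LC`,
`D_j = ∑_{block} 1/p ≤ e K_j` (`16^{-K_j} exp (C D_j) ≤ exp (-2 K_j)`), hence
`≤ exp (k² ∑ D_j) ∏ (1 + exp (-2 K_j)) ≤ (1 + C k²) W` by `err`. -/
def P_UY : Prop := ∃ e0 : ℝ, 0 < e0 ∧ ∀ e : ℝ, 0 < e → e ≤ e0 → ∀ C3 : ℝ, 1 ≤ C3 → ∃ C : ℝ, 0 < C ∧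
  ∀ᶠ T : ℝ in atTop, ∀ (k : ℝ) (J : ℕ) (K b : ℕ → ℕ), Su e C3 T k J K b →
  ∑ c ∈ (range (J + 1)).powerset, (∫ t in T..(2 * T), ‖Dr (fQ b J (QX k K c)) (y2 T) (cl t)‖ ^ 2) ≤
    (1 + C * k ^ 2) * (T * WW k J b)

/-! ## Pointwise inequalities -/

/-- JOB EX: the truncated exponential.
Proof. `‖ex K z - exp z‖ ≤ ∑_{m > K} |z|^m/m! ≤ (10/9) (K/10)^{K+1}/(K+1)! ≤ (10/9) (e/10)^{K+1}` and
`‖exp z‖ ≥ exp (-K/10)`; `(10/9) (e/10)^{K+1} exp (K/10) ≤ 0.303 · 0.301^K ≤ exp (-K)/2`. -/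
def P_EX : Prop := ∀ (K : ℕ) (z : ℂ), ‖z‖ ≤ (K : ℝ) / 10 →
  ‖ex K z - Complex.exp z‖ ≤ Real.exp (-(K : ℝ)) / 2 * ‖Complex.exp z‖

/-- JOB PW: the pointwise inequality in one block. Proof: if `‖w‖ ≤ K/10` use `P_EX` for `(k-1) w` and `k w`
(`‖exp ((k-1)w)‖^{2k} ‖exp (k w)‖^{2(1-k)} = 1`, `(1 - δ/2)² ≥ 1 - δ`); otherwise both factors are `≥ ‖hh K w‖² ≥ 1`.
(`0 ^ 0 = 1` for `k = 0, 1`.) -/
def P_PW : Prop := ∀ (K : ℕ) (k : ℝ) (w : ℂ), 1 ≤ K → 0 ≤ k → k ≤ 1 →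
  1 - Real.exp (-(K : ℝ)) ≤ (‖ex K ((k - 1 : ℝ) * w)‖ ^ 2 + ‖hh K w‖ ^ 2) ^ k *
    (‖ex K ((k : ℝ) * w)‖ ^ 2 + ‖hh K w‖ ^ 2) ^ (1 - k)

/-- JOB PL: the pointwise lower bound.
Proof. Put `A = ∏ ex (K j) (k P j)`, `B = ∏ ex (K j) ((k-1) P j)`, `x = ∑ re (P j)`, `δ = ∑ exp (-K j) ≤ k²/2`. By `P_EX`
`‖A‖ = e^{kx} (1 + O(δ))`, `‖B‖ = e^{(k-1)x} (1 + O(δ))`, both factors in `[1/2, 2]`. As `‖Z M B‖ ≥ ‖A‖/2`,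
`‖Z‖ ≥ k ‖A‖/(2 ‖B‖) ≥ (k/8) e^x`, so `‖Z‖^{2k} ≥ (k/8)^{2k} e^{2kx} ≥ (1 - C k log (2/k)) e^{2kx}` and
`‖A‖² ≤ (1 + C k²) e^{2kx}`. -/
def P_PL : Prop := ∃ C : ℝ, 0 < C ∧ ∀ (k : ℝ) (J : ℕ) (K : ℕ → ℕ) (P : ℕ → ℂ) (Z M : ℂ), 0 < k → k ≤ 1 →
  ∑ j ∈ range (J + 1), Real.exp (-(K j : ℝ)) ≤ k ^ 2 / 2 → (∀ j ≤ J, ‖P j‖ ≤ (K j : ℝ) / 10) → ‖M‖ ≤ 1 / k →
  ‖Z * M * ∏ j ∈ range (J + 1), ex (K j) ((k - 1 : ℝ) * P j) - ∏ j ∈ range (J + 1), ex (K j) ((k : ℝ) * P j)‖ ≤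
    1 / 2 * ‖∏ j ∈ range (J + 1), ex (K j) ((k : ℝ) * P j)‖ →
  (1 - C * k * Real.log (2 / k)) * ‖∏ j ∈ range (J + 1), ex (K j) ((k : ℝ) * P j)‖ ^ 2 ≤ ‖Z‖ ^ (2 * k)

/-! ## To the right of the critical line -/

/-- JOB HP: the Poisson integral in the half plane.
Proof. `F = Dp a Y` is entire and bounded for `Re s ≥ 1/2`. Let `φ` map the unit disc onto the half plane `Re s > 1/2`,
`φ 0 = cl t + Δ`. `F ∘ φ` is bounded and analytic in the open disc and continuous up to the circle except at one point. For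
`r < 1`, Jensen's formula (`log ‖g 0‖ ≤ circleAverage (log ‖g‖) 0 r`, in Mathlib) and the convexity of `exp` give
`‖g 0‖^p ≤ circleAverage (‖g‖^p) 0 r`; let `r → 1` by dominated convergence; the change of variables
`φ (e^{iθ}) = cl u` gives the Poisson kernel. (Alternatively: any proof.) -/
def P_HP : Prop := ∀ (a : ℕ → ℂ) (Y : ℕ) (p Δ t : ℝ), 0 < p → 0 < Δ →
  ‖Dp a Y (cl t + (Δ : ℂ))‖ ^ p ≤ Δ / Real.pi * ∫ u : ℝ, ‖Dp a Y (cl u)‖ ^ p / (Δ ^ 2 + (t - u) ^ 2)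

/-- JOB HT: from the line `1/2 + Δ` to the critical line, for the partial sum of zeta.
Proof. Integrate `P_HP` over `I' = [T + H, 2T - H]`, `H = T^{7/8}`. The kernel has integral `≤ 1` over `t ∈ I'`; this
gives the integral over `u ∈ [T, 2T]`. For `u ∉ [T, 2T]`, `∫_{I'} ≤ Δ T / dist(u, I')²` and
`‖ZZ‖^{2k} ≤ 1 + ‖ZZ‖²`; `∫_{-X}^{X} ‖ZZ T (cl u)‖² du ≤ T^{1/2} X` for `X ≥ T/4` (elementary mean value theorem, or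
the growth statement in `CD.P_FN`); so `|u| ≤ 4T` contributes `≤ C T · T^{3/2} / H² = C T^{3/4}`, and the dyadic
ranges `2^i T ≤ |u| ≤ 2^{i+1} T` contribute `≤ C T · T^{1/2} 2^i T / (2^i T)²`, in sum `≤ C T^{1/2}`. -/
def P_HT : Prop := ∀ᶠ T : ℝ in atTop, ∀ k Δ : ℝ, 0 < k → k ≤ 1 → 0 < Δ → Δ ≤ 1 →
  ∫ t in (T + T ^ ((7:ℝ) / 8))..(2 * T - T ^ ((7:ℝ) / 8)), ‖ZZ T (cl t + (Δ : ℂ))‖ ^ (2 * k) ≤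
    (∫ t in T..(2 * T), ‖ZZ T (cl t)‖ ^ (2 * k)) + T ^ ((4:ℝ) / 5)

/-- JOB FN: the product with the partial sum of zeta as a Dirichlet polynomial, and its growth.
Proof. `h n = ∑_{n = d m, d ≤ y2, m ≤ NN} f d`. For `n ≤ y2 T ≤ NN T` the condition `m ≤ NN` is empty, so
`h n = (f * zt) n`. Growth: `‖Dr f‖ ≤ ∑ |f| ≤ T^{1/20}`, `∫_{t-R}^{t+R} ‖ZZ‖² ≤ C (R + T) log T` (elementary mean
value theorem; see the proof of `CD.P_FN` in `Q251/CD/FN.lean`), and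
`‖Dr (f * zt) (y2 T) (cl u)‖ ≤ ∑_d |f d| ∑_{m ≤ y2} m^{-1/2} ≤ 2 T^{1/20 + 1/40}`. -/
def P_FNG : Prop := ∀ᶠ T : ℝ in atTop, ∀ f : ArithmeticFunction ℝ, (∀ n, f n ≠ 0 → n ≤ y2 T) →
  ∑ n ∈ Icc 1 (y2 T), |f n| ≤ T ^ ((1:ℝ) / 20) → ∃ h : ℕ → ℂ,
  (∀ s : ℂ, ZZ T s * Dr f (y2 T) s = Dp h (NN T * y2 T) s) ∧
  (∀ s : ℂ, ZZ T s * Dr f (y2 T) s - Dr (f * zt) (y2 T) s = Dp (fun n => if n ≤ y2 T then 0 else h n) (NN T * y2 T) s) ∧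
  ∀ t ∈ Set.Icc (T / 2) (4 * T), ∀ R : ℝ, T / 4 ≤ R →
    ∫ u in (t - R)..(t + R), ‖ZZ T (cl u) * Dr f (y2 T) (cl u) - Dr (f * zt) (y2 T) (cl u)‖ ^ 2 ≤
      T ^ ((1:ℝ) / 2) * R

/-- JOB RG: sums over rough numbers.
Proof. First part: `∑ ≤ ∏_{N ≤ p ≤ Y} (1 - 1/p)^{-1} ≤ exp (R1 (Y+1) - R1 N + C) ≤ C log Y / log N` (`CD.R1_bd`).
Second part: `∑_{r ≥ 2} ≤ ∏_{N ≤ p ≤ Y} (1 - p^{-1-δ})^{-1} - 1 ≤ exp (S + 2 ∑_{p ≥ N} p^{-2-2δ}) - 1`,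
`S = ∑_{p ≥ N} p^{-1-δ} ≤ ∑_i N^{-δ 2^i} ∑_{N^{2^i} ≤ p < N^{2^{i+1}}} 1/p ≤ C ∑_i exp (-2^i δ log N) ≤ C exp (-δ log N)` as
`δ log N ≥ 1`; and `∑_{p ≥ N} p^{-2-2δ} ≤ N^{-δ} ∑ p^{-2}`. -/
def P_RG : Prop := ∃ C : ℝ, 0 < C ∧ ∀ N Y : ℕ, 2 ≤ N → N ≤ Y →
  ∑ r ∈ rgh N 1 Y, 1 / (r : ℝ) ≤
    C * Real.log Y / Real.log N ∧
  ∀ δ : ℝ, 0 < δ → δ ≤ 2 → 1 ≤ δ * Real.log N →
    ∑ r ∈ rgh N 2 Y, (r : ℝ) ^ (-(1 + δ)) ≤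
      C * Real.exp (-(δ * Real.log N))

/-- JOB RS: smooth times rough. Proof: every `n ≥ 1` is `n = m r` with `m` the `N`-smooth part and `r` the `N`-rough
part; `G n = G m`. -/
def P_RS : Prop := ∀ (N Y : ℕ) (δ : ℝ) (G : ℕ → ℝ), 0 ≤ δ → (∀ n, 0 ≤ G n) → Sb N G →
  (∀ m r : ℕ, m ∈ Nat.smoothNumbers N → r ≠ 0 → (∀ p : ℕ, p.Prime → p ∣ r → N ≤ p) → G (m * r) = G m) →
  ∑ n ∈ Icc 1 Y, G n * (n : ℝ) ^ (-(1 + δ)) ≤ SS N G *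
    ∑ r ∈ rgh N 1 Y, (r : ℝ) ^ (-(1 + δ)) ∧
  ∑ n ∈ nsm N Y, G n * (n : ℝ) ^ (-(1 + δ)) ≤ SS N G *
    ∑ r ∈ rgh N 2 Y, (r : ℝ) ^ (-(1 + δ))

/-- JOB D1: the difference of the coefficients at the smooth numbers, `g = mu0 * fQ (k-1) * 1`, `a = fQ k`.
Proof. Both vanish if `n` has a prime factor `< b 0`. Let `n` be `N`-smooth without such factor.
(i) All `Ω_j(n) ≤ K_j`: `g = ∏ blk (pe (k-1))` (`P_GSG`), `a = ∏ blk (ek k)`, both have absolute value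
`≤ ∏ blk w`, `w(0) = 1, w(1) = k, w(a) = 1` for `a ≥ 2`, and they agree if `n` is squarefree. So
`|g - a|² ≤ 4 (∏ blk (w² (1 + 1_{a ≥ 2})) - ∏ blk w²)` (if `n` is not squarefree the first product is at least twice the
second, otherwise they agree).
(ii) Some `Ω_j(n) > K_j`: `a = 0`, `g² ≤ ∏_j (A_j + B_j) - ∏_j A_j`, `A_j = blk (pe (k-1))²`, `B_j = rr^{-K_j} blk (tm 2)`:
in the proof of `P_GS` one has `g_j² ≤ A_j` if `Ω_j ≤ K_j` and `g_j² ≤ B_j` otherwise, and the second case occurs.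
Sum with `P_GL`: the differences are `∏_j (x_j + y_j) - ∏_j x_j ≤ ∏_j x_j (exp (∑ y_j/x_j) - 1)`; in (i)
`∑_{p ≥ b 0} 2/p² ≤ C/b 0 ≤ C k²`, in (ii) `∑_j exp (-K_j/10) ≤ C k²` by `err` (`x_j ≥ 1`); and
`∏ x_j ≤ C W` by `P_LC` (with `q = 1`). -/
def P_D1 : Prop := ∃ e0 : ℝ, 0 < e0 ∧ ∀ e : ℝ, 0 < e → e ≤ e0 → ∀ C3 : ℝ, 1 ≤ C3 → ∃ C : ℝ, 0 < C ∧
  ∀ᶠ T : ℝ in atTop, ∀ (k : ℝ) (J : ℕ) (K b : ℕ → ℕ), Su e C3 T k J K b →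
  Sb (b (J + 1)) (fun n => ((mu0 (b 0) * fQ b J (QE (k - 1) K) * zt) n - fQ b J (QE k K) n) ^ 2) ∧
  SS (b (J + 1)) (fun n => ((mu0 (b 0) * fQ b J (QE (k - 1) K) * zt) n - fQ b J (QE k K) n) ^ 2) ≤
    C * k ^ 2 * WW k J b

/-- JOB G1: the mollified zeta function to the right of the line.
Proof. Write `f = mu0 (b 0) * fQ b J (QE (k-1) K)`, `g = f * zt`, `a = fQ b J (QE k K)`, `F = ZZ · Dr f`, `DL = Dr g (y2 T)`.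
`F - a = (F - DL) + (DL - a)`. (1) `CD.P_SH` (proved) with `P_FNG` (`∑ |f| ≤ T^{2e}` by `P_FA`, `len`):
`∫_{T/2}^{4T} ‖F - DL‖²(cl t + Δ) ≤ (y2 T)^{-2Δ} (∫_{T/4}^{8T} ‖F - DL‖²(cl u) + 20 T^{1/2})`, and
`∫ ‖F‖² ≤ 2 ∫ ‖ζ‖² ‖Dr f‖² + C T^{-1} ∫ ‖Dr f‖² ≤ C K_J² T W` (`CD.P_ZN`, `P_UX`), `∫ ‖DL‖² ≤ 9 T ∑_{n ≤ y2} g²/n + …
≤ C K_J² T W` (`CD.P_MVC`, `P_RS` with `δ = 0`, `P_RG`, `P_UG`), while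
`(y2 T)^{-2Δ} ≤ exp (-Δ L / 11) = (k/2)^{C5 K_J²/11} ≤ k / K_J²` for `C5` large. The error terms of `P_MVC` are
`≤ T^{1/2}` (`|g n| ≤` number of divisors).
(2) `∫ ‖DL - a‖²(cl t + Δ) ≤ 4T ∑_{n ≤ y2} |g - a|² n^{-1-2Δ} + T^{1/2}`; the smooth `n` contribute `≤ C k² W` by `P_D1`;
the other `n` (there `a = 0`) contribute by `P_RS`, `P_RG` with `δ = 2Δ` at most
`C W exp (-2Δ log N) ≤ C W (k/2)^{2 C5}` since `log N ≥ L / K_J²`. -/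
def P_G1 : Prop := ∃ e0 : ℝ, 0 < e0 ∧ ∃ C5 : ℝ, 1 ≤ C5 ∧ ∀ e : ℝ, 0 < e → e ≤ e0 → ∀ C3 : ℝ, 1 ≤ C3 →
  ∃ C : ℝ, 0 < C ∧ ∀ᶠ T : ℝ in atTop, ∀ (k : ℝ) (J : ℕ) (K b : ℕ → ℕ), Su e C3 T k J K b →
  ∫ t in (T / 2)..(4 * T), ‖ZZ T (cl t + (dl C5 T k (K J) : ℂ)) *
      Dr (mu0 (b 0) * fQ b J (QE (k - 1) K)) (y2 T) (cl t + (dl C5 T k (K J) : ℂ)) -
      Dr (fQ b J (QE k K)) (y2 T) (cl t + (dl C5 T k (K J) : ℂ))‖ ^ 2 ≤ C * k * (T * WW k J b)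

/-- JOB LA: the mean square of the tilt to the right of the line, from below.
Proof. `CD.P_MVC`: `≥ (T - 2 T^{7/8}) ∑ a(n)² n^{-1-2Δ} - T^{1/2}`, `a = fQ b J (QE k K)` is supported on `n ≤ y2 T` (`P_PRM`,
`len`). `∑ a(n)² n^{-1-2Δ} ≥ S₁ - S₂`, `S₁ = ∏_{b 0 ≤ p < N} ∑_a (k^a/a!)² p^{-(1+2Δ)a} ≥ ∏ (1 + k² p^{-1-2Δ})
≥ exp (k² ∑ p^{-1-2Δ} - k⁴ ∑ p^{-2}) ≥ exp (k² R1 N - k² R1 (b 0) - 2Δ k² RL N - C k²)`, where `R1 (b 0) ≤ C log (2/k)`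
(`P_RN`) and `Δ RL N ≤ Δ (log N + C) ≤ 3 C5 log (2/k)`;
`S₂ ≤ ∑_j rr^{-K_j} exp (k² R1 N + (rr - 1) k² D_j) ≤ ∑_j exp (-K_j/10) W ≤ k² W` (Rankin, `P_GL`, `P_LC`). -/
def P_LA : Prop := ∃ e0 : ℝ, 0 < e0 ∧ ∀ C5 : ℝ, 1 ≤ C5 → ∀ e : ℝ, 0 < e → e ≤ e0 → ∀ C3 : ℝ, 1 ≤ C3 →
  ∃ C : ℝ, 0 < C ∧ ∀ᶠ T : ℝ in atTop, ∀ (k : ℝ) (J : ℕ) (K b : ℕ → ℕ), Su e C3 T k J K b →
  (1 - C * k * Real.log (2 / k)) * (T * WW k J b) ≤ ∫ t in (T + T ^ ((7:ℝ) / 8))..(2 * T - T ^ ((7:ℝ) / 8)),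
    ‖Dr (fQ b J (QE k K)) (y2 T) (cl t + (dl C5 T k (K J) : ℂ))‖ ^ 2

/-- JOB LD: the exceptional sets for the lower bound.
Proof. As in `P_UY`: `CD.P_MVC` for `n ↦ f(n) n^{-Δ}` and `n^{-2Δ} ≤ 1`. First part: `P_FS`, `P_GL`, `P_LC`:
`∑ f_i(n)²/n ≤ 4^{-K_i} exp (C D_i) ∏_{j ≠ i} exp (k² D_j) ≤ exp (-K_i) W`; sum over `i` with `err`.
Second part: `(mu0 * fQ)(n)² ≤ low (1_{a ≤ 1}) n ∏ blk (ek k)²`, so the sum is `≤ exp (R1 (b 0)) W ≤ C log (2/k) W`. -/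
def P_LD : Prop := ∃ e0 : ℝ, 0 < e0 ∧ ∀ C5 : ℝ, 1 ≤ C5 → ∀ e : ℝ, 0 < e → e ≤ e0 → ∀ C3 : ℝ, 1 ≤ C3 →
  ∃ C : ℝ, 0 < C ∧ ∀ᶠ T : ℝ in atTop, ∀ (k : ℝ) (J : ℕ) (K b : ℕ → ℕ), Su e C3 T k J K b →
  ∑ i ∈ range (J + 1), (∫ t in (T / 2)..(4 * T),
    ‖Dr (fQ b J (QL k K i)) (y2 T) (cl t + (dl C5 T k (K J) : ℂ))‖ ^ 2) ≤ C * k ^ 2 * (T * WW k J b) ∧
  ∫ t in (T / 2)..(4 * T), ‖Dr (mu0 (b 0) * fQ b J (QE k K)) (y2 T) (cl t + (dl C5 T k (K J) : ℂ))‖ ^ 2 ≤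
    C * Real.log (2 / k) * (T * WW k J b)

/-! ## Assembly -/

/-- JOB UB: the upper bound.
Proof. Let `X t = ∑_c ‖Dr (fQ b J (QX (k-1) K c)) (y2 T) (cl t)‖²`, `Y` the same with `k`. By `P_PR` and `Finset.prod_add`
`X = ∏_j (‖ex K_j ((k-1) P_j)‖² + ‖hh K_j P_j‖²)`, so `P_PW` gives
`X^k Y^{1-k} ≥ ∏ (1 - exp (-K_j)) ≥ 1 - ∑ exp (-K_j) ≥ 1 - k²/2`. With `Λ = C K_J² log (2/k)`, weighted AM-GM: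
`‖ζ‖^{2k} (1 - k²/2) ≤ (‖ζ‖² X)^k Y^{1-k} ≤ Λ^k (k ‖ζ‖² X / Λ + (1-k) Y)`; integrate, `P_UX`, `P_UY`:
`≤ Λ^k (1 + C k²) T W`, and `Λ^k ≤ exp (k (C + 2 log (C3/k) + log log (2/k)…)) ≤ 1 + C k log (2/k)`. Then `P_RN`, `P_SU`. -/
def P_UB : Prop := ∃ C : ℝ, 0 < C ∧ ∀ᶠ T : ℝ in atTop, ∀ k : ℝ, Real.log T ^ (-(1 / 5) : ℝ) ≤ k → k ≤ 1 →
  ∫ t in T..(2 * T), ‖riemannZeta (cl t)‖ ^ (2 * k) ≤ (1 + C * k * Real.log (2 / k)) * (T * Real.log T ^ (k ^ 2))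

/-- JOB LB: the lower bound.
Proof. Put `s = cl t + Δ`, `Δ = dl C5 T k (K J)` (`≤ 1` for `T` large), `A = Dr (fQ b J (QE k K)) (y2 T) s`,
`M = Dr (mu0 (b 0)) (y2 T) s`, `B = Dr (fQ b J (QE (k-1) K)) (y2 T) s`, `F = ZZ · M · B` (`P_PRM`, `P_PR`). Pointwise
`(1 - C k log (2/k)) ‖A‖² ≤ ‖ZZ‖^{2k} + ∑_i ‖Dr (fQ b J (QL k K i))‖² + 4 ‖F - A‖² + k² ‖M A‖²`: if all `‖P_j‖ ≤ K_j/10`,
`‖F - A‖ ≤ ‖A‖/2`, `‖M‖ ≤ 1/k` use `P_PL`, otherwise one of the other terms is `≥ ‖A‖²` (`Dr (fQ b J (QL k K i)) =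
hh K_i P_i · A` by `P_PR`). Integrate over `[T + T^{7/8}, 2T - T^{7/8}]`: `P_LA`, `P_LD`, `P_G1`, `P_HT`; finally
`‖ZZ‖^{2k} ≤ ‖ζ‖^{2k} + ‖ζ - ZZ‖^{2k}` for `2k ≤ 1` (`CD.P_ZN`: `‖ζ - ZZ‖ ≤ C T^{-1/2}`, and `T^{-k} ≤ exp (-L^{4/5}) ≤ k`),
and `P_RN`. For `k ≥ 1/2` (or any fixed constant) the claim is trivial if `C` is large. -/
def P_LB : Prop := ∃ C : ℝ, 0 < C ∧ ∀ᶠ T : ℝ in atTop, ∀ k : ℝ, Real.log T ^ (-(1 / 5) : ℝ) ≤ k → k ≤ 1 →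
  (1 - C * k * Real.log (2 / k)) * (T * Real.log T ^ (k ^ 2)) ≤ ∫ t in T..(2 * T), ‖riemannZeta (cl t)‖ ^ (2 * k)

/-- JOB DY: the whole interval, with the shift `x`.
Proof. `∫_0^1 ‖ζ(1/2 + ix + iuT)‖^{2k} du = (1/T) ∫_x^{x+T} ‖ζ(cl t)‖^{2k} dt`. Cut `[0, T]` into `[T 2^{-i-1}, T 2^{-i}]`,
`2^i ≤ L²`, apply the hypothesis (with `L^{-1/6} ≥ (log (T/L²))^{-1/5}`), `(L - i log 2 - …)^{k²} = L^{k²} (1 + O(k² i / L))`,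
`∑_i 2^{-i-1} = 1 - O(1/L²)`; the rest is `≤ ∫_0^{2T/L²} (1 + ‖ζ‖²) ≤ T/L^{1/2}·…` (any second moment bound
`∫_0^X ‖ζ(cl t)‖² dt ≤ X (log X)^{C}` with `C < 3/2`, or the hypothesis with `k = 1` at the dyadic points down to
`T^{1/2}` and a crude bound `‖ζ(cl t)‖ ≤ 10 (1 + |t|)` below), and the end pieces of length `|x|` near `0` and `T` are
`≤ C_x T^{1/2}·…` (`‖ζ(cl t)‖² ≤ C (1+|t|)^{2/3}`, or shift by using `[T', 2T']` with `T' = T - |x|`, `T + |x|`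
and monotonicity). -/
def P_DY : Prop := (∃ C : ℝ, 0 < C ∧ ∀ᶠ T : ℝ in atTop, ∀ k : ℝ, Real.log T ^ (-(1 / 5) : ℝ) ≤ k → k ≤ 1 →
    |(∫ t in T..(2 * T), ‖riemannZeta (cl t)‖ ^ (2 * k)) - T * Real.log T ^ (k ^ 2)| ≤
      C * k * Real.log (2 / k) * (T * Real.log T ^ (k ^ 2))) →
  ∃ C : ℝ, 0 < C ∧ ∀ x : ℝ, ∀ᶠ T : ℝ in atTop, ∀ β : ℝ, Real.log T ^ (-(1 / 6) : ℝ) ≤ β → β ≤ 2 →
    |(∫ u in (0:ℝ)..1, ‖riemannZeta (1 / 2 + (x : ℂ) * Complex.I + (u : ℂ) * (T : ℂ) * Complex.I)‖ ^ β) -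
      Real.log T ^ (β ^ 2 / 4)| ≤ C * β * Real.log (4 / β) * Real.log T ^ (β ^ 2 / 4)

/-- JOB TI: very small orders. Proof: let `A β` be the moment of order `β` (an integral over `[0, 1]`), `β₁ = L^{-1/6}`,
`β₂ = 2 β₁`, and `β < β₁`. Jensen: `A β ≤ (A β₁)^{β/β₁} ≤ 1 + C L^{-1/6} log L`. Hoelder (log-convexity):
`A β₁ ≤ (A β)^θ (A β₂)^{1-θ}`, `β₁ = θ β + (1-θ) β₂`, `θ ≥ 1/2`, and `A β₁ ≥ 1 - C L^{-1/6} log L`,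
`A β₂ ≤ 1 + C L^{-1/6} log L` by the hypothesis (`L^{β₂²/4} = exp (O(L^{-1/3} V))`). So
`|A β - 1| ≤ C L^{-1/6} log L ≤ L^{-1/7}/2`, and `|L^{β²/4} - 1| ≤ L^{-1/7}/2`. -/
def P_TI : Prop := ∀ x : ℝ, ∀ C : ℝ, 0 < C → (∀ᶠ T : ℝ in atTop, ∀ β : ℝ, Real.log T ^ (-(1 / 6) : ℝ) ≤ β → β ≤ 2 →
    |(∫ u in (0:ℝ)..1, ‖riemannZeta (1 / 2 + (x : ℂ) * Complex.I + (u : ℂ) * (T : ℂ) * Complex.I)‖ ^ β) -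
      Real.log T ^ (β ^ 2 / 4)| ≤ C * β * Real.log (4 / β) * Real.log T ^ (β ^ 2 / 4)) →
  ∀ᶠ T : ℝ in atTop, ∀ β : ℝ, 0 < β → β ≤ 2 →
    |(∫ u in (0:ℝ)..1, ‖riemannZeta (1 / 2 + (x : ℂ) * Complex.I + (u : ℂ) * (T : ℂ) * Complex.I)‖ ^ β) -
      Real.log T ^ (β ^ 2 / 4)| ≤ (C * β * Real.log (4 / β) + Real.log T ^ (-(1 / 7) : ℝ)) * Real.log T ^ (β ^ 2 / 4)

end Pool.Agent.Q276.KZ
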