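import Pool.Agent.Q276.KZ.Pol
import Pool.Agent.Q276.CD.Tw3

set_option autoImplicit false

/-! Project KZ: the upper bound. -/

namespace Pool.Agent.Q276.KZ

open MeasureTheory Filter Finset
open Pool.Agent.Q276.CD

section
variable {e C3 T k : ℝ} {J : ℕ} {K b : ℕ → ℕ}

lemma sumsq_QX (hPR : P_PR) (h : Su e C3 T k J K b) (hT : T ^ e ≤ (y2 T : ℝ)) (z : ℝ) (s : ℂ) :
    ∑ c ∈ (range (J + 1)).powerset, ‖Dr (fQ b J (QX z K c)) (y2 T) s‖ ^ 2 =
      ∏ j ∈ range (J + 1), (‖ex (K j) ((z : ℝ) * Pj b j s)‖ ^ 2 + ‖hh (K j) (Pj b j s)‖ ^ 2) := by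
  have h1 : ∏ j ∈ range (J + 1), (‖ex (K j) ((z : ℝ) * Pj b j s)‖ ^ 2 + ‖hh (K j) (Pj b j s)‖ ^ 2) =
      ∏ j ∈ range (J + 1), (‖hh (K j) (Pj b j s)‖ ^ 2 + ‖ex (K j) ((z : ℝ) * Pj b j s)‖ ^ 2) :=
    prod_congr rfl fun j _ => add_comm _ _
  rw [h1, prod_add]
  refine sum_congr rfl fun c hc => ?_
  rw [mem_powerset] at hc
  rw [Dr_QX hPR h hT, norm_prod, ← prod_pow]
  have h2 : ∀ j, ‖(if j ∈ c then hh (K j) (Pj b j s) else ex (K j) ((z : ℝ) * Pj b j s))‖ ^ 2 =
      if j ∈ c then ‖hh (K j) (Pj b j s)‖ ^ 2 else ‖ex (K j) ((z : ℝ) * Pj b j s)‖ ^ 2 := by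
    intro j
    split_ifs <;> rfl
  rw [prod_congr rfl fun j _ => h2 j, prod_ite]
  congr 1
  · refine prod_congr ?_ fun _ _ => rfl
    ext j
    rw [mem_filter]
    exact ⟨fun h => h.2, fun h => ⟨hc h, h⟩⟩
  · refine prod_congr ?_ fun _ _ => rfl
    ext j
    simp only [mem_filter, Finset.mem_sdiff]

/-- the errors -/
lemma Su.err2 (h : Su e C3 T k J K b) (he : 0 < e) (he1 : e ≤ 1 / 2) :
    ∑ j ∈ range (J + 1), Real.exp (-(K j : ℝ)) ≤ k ^ 2 / 2 := by
  have h1 : ∀ j ∈ range (J + 1), Real.exp (-(K j : ℝ)) ≤ 1 / 2 * Real.exp (-((K j : ℝ) / 100)) := by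
    intro j hj
    rw [mem_range] at hj
    have h2 := h.big j (by omega)
    have h3 : (2:ℝ) ≤ K j := by
      refine le_trans ?_ h2
      rw [le_div_iff₀ he]
      linarith
    have h4 : Real.exp (-(K j : ℝ)) = Real.exp (-(99 / 100 * (K j : ℝ))) * Real.exp (-((K j : ℝ) / 100)) := by
      rw [← Real.exp_add]; ring_nf
    rw [h4]
    refine mul_le_mul_of_nonneg_right ?_ (Real.exp_pos _).le
    have h5 : Real.exp (-(99 / 100 * (K j : ℝ))) ≤ Real.exp (-1) := Real.exp_le_exp.mpr (by linarith)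
    have h6 : Real.exp (-1) ≤ 1 / 2 := by
      rw [Real.exp_neg, inv_le_comm₀ (Real.exp_pos _) (by norm_num)]
      have := Real.add_one_le_exp (1:ℝ)
      norm_num at this ⊢
      linarith
    linarith
  calc ∑ j ∈ range (J + 1), Real.exp (-(K j : ℝ)) ≤ ∑ j ∈ range (J + 1), 1 / 2 * Real.exp (-((K j : ℝ) / 100)) :=
        sum_le_sum h1
    _ = 1 / 2 * ∑ j ∈ range (J + 1), Real.exp (-((K j : ℝ) / 100)) := by rw [mul_sum]
    _ ≤ _ := by linarith [h.err]

lemma one_sub_sum_le_prod {ι : Type*} (s : Finset ι) (f : ι → ℝ) (h0 : ∀ i ∈ s, 0 ≤ f i) (h1 : ∀ i ∈ s, f i ≤ 1) :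
    1 - ∑ i ∈ s, f i ≤ ∏ i ∈ s, (1 - f i) := by
  classical
  induction s using Finset.induction_on with
  | empty => simp
  | insert a s ha ih =>
    rw [sum_insert ha, prod_insert ha]
    have h2 := ih (fun i hi => h0 i (mem_insert_of_mem hi)) (fun i hi => h1 i (mem_insert_of_mem hi))
    have h3 := h0 a (mem_insert_self a s)
    have h4 := h1 a (mem_insert_self a s)
    have h5 : 0 ≤ ∑ i ∈ s, f i := sum_nonneg fun i hi => h0 i (mem_insert_of_mem hi)
    have h6 : (1 - f a) * (1 - ∑ i ∈ s, f i) ≤ (1 - f a) * ∏ i ∈ s, (1 - f i) :=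
      mul_le_mul_of_nonneg_left h2 (by linarith)
    nlinarith

/-- the pointwise inequality -/
lemma pointwise (hPR : P_PR) (hPW : P_PW) (h : Su e C3 T k J K b) (he : 0 < e) (he1 : e ≤ 1 / 2)
    (hT : T ^ e ≤ (y2 T : ℝ)) (s : ℂ) :
    1 - k ^ 2 / 2 ≤ (∑ c ∈ (range (J + 1)).powerset, ‖Dr (fQ b J (QX (k - 1) K c)) (y2 T) s‖ ^ 2) ^ k *
      (∑ c ∈ (range (J + 1)).powerset, ‖Dr (fQ b J (QX k K c)) (y2 T) s‖ ^ 2) ^ (1 - k) := by
  rw [sumsq_QX hPR h hT, sumsq_QX hPR h hT, ← Real.finsetProd_rpow _ _ (fun j _ => by positivity),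
    ← Real.finsetProd_rpow _ _ (fun j _ => by positivity), ← prod_mul_distrib]
  have h1 : ∏ j ∈ range (J + 1), (1 - Real.exp (-(K j : ℝ))) ≤ ∏ j ∈ range (J + 1),
      ((‖ex (K j) (((k - 1 : ℝ) : ℂ) * Pj b j s)‖ ^ 2 + ‖hh (K j) (Pj b j s)‖ ^ 2) ^ k *
      (‖ex (K j) ((k : ℂ) * Pj b j s)‖ ^ 2 + ‖hh (K j) (Pj b j s)‖ ^ 2) ^ (1 - k)) := by
    refine prod_le_prod (fun j _ => ?_) fun j hj => ?_
    · have : Real.exp (-(K j : ℝ)) ≤ 1 := Real.exp_le_one_iff.mpr (by simp)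
      linarith
    · rw [mem_range] at hj
      have h2 := h.big j (by omega)
      have h3 : (1:ℝ) ≤ K j := by
        refine le_trans ?_ h2
        rw [le_div_iff₀ he]
        linarith
      exact hPW (K j) k (Pj b j s) (by exact_mod_cast h3) h.k0.le h.k1
  refine le_trans ?_ h1
  have h2 := one_sub_sum_le_prod (range (J + 1)) (fun j => Real.exp (-(K j : ℝ))) (fun j _ => (Real.exp_pos _).le)
    (fun j _ => Real.exp_le_one_iff.mpr (by simp))
  have h3 := h.err2 he he1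
  linarith

end

/-- `y = k log (2/k)` is at most `1` -/
lemma y_le_one {k : ℝ} (h0 : 0 < k) : k * Real.log (2 / k) ≤ 1 := by
  have h1 := Real.log_le_sub_one_of_pos (x := 2 / k / Real.exp 1) (by positivity)
  rw [Real.log_div (by positivity) (Real.exp_pos _).ne', Real.log_exp] at h1
  have h2 : k * (2 / k / Real.exp 1) = 2 / Real.exp 1 := by field_simp
  have h3 : k * Real.log (2 / k) ≤ k * (2 / k / Real.exp 1) := mul_le_mul_of_nonneg_left (by linarith) h0.le
  rw [h2] at h3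
  refine h3.trans ?_
  rw [div_le_one (Real.exp_pos _)]
  have := Real.add_one_le_exp (1:ℝ)
  linarith

lemma log2k {k : ℝ} (h0 : 0 < k) (h1 : k ≤ 1) : 1 / 2 ≤ Real.log (2 / k) := by
  have h2 : Real.log 2 ≤ Real.log (2 / k) := Real.log_le_log (by norm_num) (by rw [le_div_iff₀ h0]; linarith)
  have := Real.log_two_gt_d9
  linarith

lemma k_le_y {k : ℝ} (h0 : 0 < k) (h1 : k ≤ 1) : k ≤ 2 * (k * Real.log (2 / k)) := by
  have := log2k h0 h1
  nlinarith

lemma ksq_le_y {k : ℝ} (h0 : 0 < k) (h1 : k ≤ 1) : k ^ 2 ≤ 2 * (k * Real.log (2 / k)) := by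
  have := k_le_y h0 h1
  nlinarith

/-- the power `Λ ^ k` -/
lemma lam_pow {C C3 k : ℝ} (hC : 0 < C) (hC3 : 1 ≤ C3) (h0 : 0 < k) (h1 : k ≤ 1) {KJ : ℝ} (hK : 0 < KJ)
    (hK1 : KJ ≤ C3 / k) :
    (C * KJ ^ 2 * Real.log (2 / k)) ^ k ≤
      1 + (Real.exp (2 * |Real.log C| + 4 * Real.log C3 + 3) * (2 * |Real.log C| + 4 * Real.log C3 + 3)) *
        (k * Real.log (2 / k)) := by
  set l := Real.log (2 / k) with hl
  have hl2 : 1 / 2 ≤ l := log2k h0 h1
  have hl0 : 0 < l := by linarith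
  set M := 2 * |Real.log C| + 4 * Real.log C3 + 3 with hM
  have hM0 : 0 ≤ M := by
    have := abs_nonneg (Real.log C)
    have := Real.log_nonneg hC3
    rw [hM]; linarith
  have hpos : 0 < C * KJ ^ 2 * l := by positivity
  have h2 : Real.log (C * KJ ^ 2 * l) ≤ M * l := by
    rw [Real.log_mul (by positivity) hl0.ne', Real.log_mul hC.ne' (by positivity), Real.log_pow]
    have a1 : Real.log C ≤ 2 * |Real.log C| * l := by
      have := le_abs_self (Real.log C)
      have := abs_nonneg (Real.log C)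
      nlinarith
    have a2 : Real.log KJ ≤ Real.log C3 + Real.log (1 / k) := by
      rw [← Real.log_mul (by linarith) (by positivity)]
      refine Real.log_le_log hK ?_
      rw [mul_one_div]
      exact hK1
    have a3 : Real.log (1 / k) ≤ l := by
      rw [hl]
      refine Real.log_le_log (by positivity) ?_
      exact div_le_div_of_nonneg_right (by norm_num) h0.le
    have a4 : Real.log l ≤ l := (Real.log_le_sub_one_of_pos hl0).trans (by linarith)
    have a5 : Real.log C3 ≤ 2 * Real.log C3 * l := by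
      have := Real.log_nonneg hC3
      nlinarith
    push_cast
    rw [hM]
    nlinarith
  have h3 : (C * KJ ^ 2 * l) ^ k ≤ Real.exp (M * (k * l)) := by
    rw [Real.rpow_def_of_pos hpos]
    refine Real.exp_le_exp.mpr ?_
    have := mul_le_mul_of_nonneg_right h2 h0.le
    calc Real.log (C * KJ ^ 2 * l) * k ≤ M * l * k := this
      _ = _ := by ring
  refine h3.trans ?_
  have hy := y_le_one h0
  have hy0 : 0 ≤ k * l := by positivity
  set y := k * l with hyd
  -- exp (M y) ≤ 1 + e^M M y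
  have h4 : 1 - M * y ≤ Real.exp (-(M * y)) := by
    have := Real.add_one_le_exp (-(M * y)); linarith
  have h5 : Real.exp (M * y) - 1 ≤ M * y * Real.exp (M * y) := by
    have h6 := mul_le_mul_of_nonneg_right h4 (Real.exp_pos (M * y)).le
    rw [← Real.exp_add, neg_add_cancel, Real.exp_zero] at h6
    nlinarith
  have h6 : Real.exp (M * y) ≤ Real.exp M := by
    refine Real.exp_le_exp.mpr ?_
    nlinarith
  have h7 : M * y * Real.exp (M * y) ≤ M * y * Real.exp M := mul_le_mul_of_nonneg_left h6 (by positivity)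
  calc Real.exp (M * y) ≤ 1 + M * y * Real.exp M := by linarith
    _ = _ := by ring

lemma one_add_mul_le {a c y : ℝ} (ha : 0 ≤ a) (hc : 0 ≤ c) (hy : 0 ≤ y) (hy1 : y ≤ 1) :
    (1 + a * y) * (1 + c * y) ≤ 1 + (a + c + a * c) * y := by
  have : a * c * (y * y) ≤ a * c * (y * 1) := by
    refine mul_le_mul_of_nonneg_left ?_ (by positivity)
    exact mul_le_mul_of_nonneg_left hy1 hy
  nlinarith

lemma zeta_cl_cont : Continuous fun t : ℝ => riemannZeta (cl t) := by
  have h1 : Continuous cl := by unfold cl; fun_prop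
  refine continuous_iff_continuousAt.mpr fun t => ?_
  have h2 : cl t ≠ 1 := by
    intro hc
    have := congrArg Complex.re hc
    unfold cl at this
    norm_num at this
  exact (differentiableAt_riemannZeta h2).continuousAt.comp h1.continuousAt

theorem t_UB (hSU : P_SU) (hRN : P_RN) (hPR : P_PR) (hUX : P_UX) (hUY : P_UY) (hPW : P_PW) : P_UB := by
  obtain ⟨e1, he1, hUX⟩ := hUX
  obtain ⟨e2, he2, hUY⟩ := hUY
  set e : ℝ := min (min e1 e2) (1 / 100) with he
  have he0 : 0 < e := lt_min (lt_min he1 he2) (by norm_num)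
  have hee1 : e ≤ e1 := (min_le_left _ _).trans (min_le_left _ _)
  have hee2 : e ≤ e2 := (min_le_left _ _).trans (min_le_right _ _)
  have hee3 : e ≤ 1 / 100 := min_le_right _ _
  obtain ⟨C3, hC3, hSU⟩ := hSU e he0
  obtain ⟨CX, hCX, hUX⟩ := hUX e he0 hee1 C3 hC3
  obtain ⟨CY, hCY, hUY⟩ := hUY e he0 hee2 C3 hC3
  obtain ⟨CR, hCR, hRN⟩ := hRN e he0 hee3 C3 hC3
  set M := Real.exp (2 * |Real.log CX| + 4 * Real.log C3 + 3) * (2 * |Real.log CX| + 4 * Real.log C3 + 3) with hM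
  have hM0 : 0 ≤ M := by
    have := abs_nonneg (Real.log CX)
    have := Real.log_nonneg hC3
    have h0 : 0 ≤ 2 * |Real.log CX| + 4 * Real.log C3 + 3 := by linarith
    exact mul_nonneg (Real.exp_pos _).le h0
  set A1 := M + 2 * CY + M * (2 * CY) with hA1
  set A2 := A1 + 2 * CR + A1 * (2 * CR) with hA2
  set A3 := A2 + 2 + A2 * 2 with hA3
  have hA10 : 0 ≤ A1 := by positivity
  have hA20 : 0 ≤ A2 := by positivity
  have hA30 : 0 < A3 := by positivity
  refine ⟨A3, hA30, ?_⟩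
  filter_upwards [hSU, hUX, hUY, hRN, pow_le_y2 (e := e) (by linarith), eventually_ge_atTop (3:ℝ)]
    with T hSU hUX hUY hRN hT hT3 k hk hk1
  obtain ⟨J, K, b, hS⟩ := hSU k hk hk1
  have hX := (hUX k J K b hS).1
  have hY := hUY k J K b hS
  obtain ⟨-, hW, -, -, -⟩ := hRN k J K b hS
  have hk0 := hS.k0
  have hT0 : 0 < T := by linarith
  have hL0 : 0 < Real.log T := Real.log_pos (by linarith)
  set y := k * Real.log (2 / k) with hy
  have hl2 := log2k hk0 hk1
  have hy0 : 0 ≤ y := by positivity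
  have hy1 : y ≤ 1 := y_le_one hk0
  have hky := ksq_le_y hk0 hk1
  rw [← hy] at hky
  have hKJ : (0:ℝ) < K J := by
    have := hS.big J le_rfl
    have h1 : 0 < 1 / e := by positivity
    linarith
  set X : ℝ → ℝ := fun t => ∑ c ∈ (range (J + 1)).powerset, ‖Dr (fQ b J (QX (k - 1) K c)) (y2 T) (cl t)‖ ^ 2 with hXd
  set Y : ℝ → ℝ := fun t => ∑ c ∈ (range (J + 1)).powerset, ‖Dr (fQ b J (QX k K c)) (y2 T) (cl t)‖ ^ 2 with hYd
  have hXc : Continuous X := by
    refine continuous_finsetSum _ fun c _ => ?_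
    exact (Dr_cont _ _).norm.pow 2
  have hYc : Continuous Y := by
    refine continuous_finsetSum _ fun c _ => ?_
    exact (Dr_cont _ _).norm.pow 2
  have hX0 : ∀ t, 0 ≤ X t := fun t => sum_nonneg fun c _ => sq_nonneg _
  have hY0 : ∀ t, 0 ≤ Y t := fun t => sum_nonneg fun c _ => sq_nonneg _
  have hz := zeta_cl_cont
  set Λ := CX * (K J : ℝ) ^ 2 * Real.log (2 / k) with hΛ
  have hΛ0 : 0 < Λ := by positivity
  have hW0 : 0 < WW k J b := Real.exp_pos _
  set TW := T * WW k J b with hTW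
  have hTW0 : 0 < TW := by positivity
  -- integrals
  have hIX : ∫ t in T..(2 * T), ‖riemannZeta (cl t)‖ ^ 2 * X t ≤ Λ * TW := by
    have h1 : ∫ t in T..(2 * T), ‖riemannZeta (cl t)‖ ^ 2 * X t ≤ ∫ t in (T / 4)..(8 * T), ‖riemannZeta (cl t)‖ ^ 2 * X t := by
      refine intervalIntegral.integral_mono_interval (by linarith) (by linarith) (by linarith) ?_ ?_
      · exact Filter.Eventually.of_forall fun t => mul_nonneg (sq_nonneg _) (hX0 t)
      · exact ((hz.norm.pow 2).mul hXc).intervalIntegrable _ _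
    refine h1.trans (le_trans (le_of_eq ?_) hX)
    rw [← intervalIntegral.integral_finsetSum]
    · refine intervalIntegral.integral_congr fun t _ => ?_
      simp only [hXd]
      rw [mul_sum]
    · intro c _
      exact ((hz.norm.pow 2).mul ((Dr_cont _ _).norm.pow 2)).intervalIntegrable _ _
  have hIY : ∫ t in T..(2 * T), Y t ≤ (1 + CY * k ^ 2) * TW := by
    refine le_trans (le_of_eq ?_) hY
    rw [← intervalIntegral.integral_finsetSum]
    intro c _
    exact ((Dr_cont _ _).norm.pow 2).intervalIntegrable _ _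
  -- pointwise
  have hpt : ∀ t, ‖riemannZeta (cl t)‖ ^ (2 * k) * (1 - k ^ 2 / 2) ≤
      Λ ^ k * (k * (‖riemannZeta (cl t)‖ ^ 2 * X t / Λ) + (1 - k) * Y t) := by
    intro t
    have h1 := pointwise hPR hPW hS he0 (by linarith) hT (cl t)
    have h2 : ‖riemannZeta (cl t)‖ ^ (2 * k) = (‖riemannZeta (cl t)‖ ^ 2) ^ k := by
      rw [Real.rpow_mul (norm_nonneg _), Real.rpow_two]
    have h3 := Real.geom_mean_le_arith_mean2_weighted hk0.le (by linarith : (0:ℝ) ≤ 1 - k)
      (p₁ := ‖riemannZeta (cl t)‖ ^ 2 * X t / Λ) (p₂ := Y t)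
      (div_nonneg (mul_nonneg (sq_nonneg _) (hX0 t)) hΛ0.le) (hY0 t) (by ring)
    have h4 : (‖riemannZeta (cl t)‖ ^ 2 * X t / Λ) ^ k = (‖riemannZeta (cl t)‖ ^ 2) ^ k * X t ^ k / Λ ^ k := by
      rw [Real.div_rpow (mul_nonneg (sq_nonneg _) (hX0 t)) hΛ0.le, Real.mul_rpow (sq_nonneg _) (hX0 t)]
    have hΛk : 0 < Λ ^ k := Real.rpow_pos_of_pos hΛ0 _
    have h5 : (‖riemannZeta (cl t)‖ ^ 2) ^ k * (X t ^ k * Y t ^ (1 - k)) ≤
        Λ ^ k * (k * (‖riemannZeta (cl t)‖ ^ 2 * X t / Λ) + (1 - k) * Y t) := by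
      rw [h4] at h3
      have h6 := mul_le_mul_of_nonneg_left h3 hΛk.le
      refine le_trans (le_of_eq ?_) h6
      field_simp
    rw [h2]
    exact (mul_le_mul_of_nonneg_left h1 (Real.rpow_nonneg (sq_nonneg _) _)).trans h5
  have hzk : Continuous fun t : ℝ => ‖riemannZeta (cl t)‖ ^ (2 * k) :=
    hz.norm.rpow_const fun _ => Or.inr (by linarith)
  have hint : (∫ t in T..(2 * T), ‖riemannZeta (cl t)‖ ^ (2 * k)) * (1 - k ^ 2 / 2) ≤
      Λ ^ k * ((1 + CY * k ^ 2) * TW) := by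
    rw [← intervalIntegral.integral_mul_const]
    have h1 : ∫ t in T..(2 * T), ‖riemannZeta (cl t)‖ ^ (2 * k) * (1 - k ^ 2 / 2) ≤
        ∫ t in T..(2 * T), Λ ^ k * (k * (‖riemannZeta (cl t)‖ ^ 2 * X t / Λ) + (1 - k) * Y t) := by
      refine intervalIntegral.integral_mono_on (by linarith) ?_ ?_ fun t _ => hpt t
      · exact (hzk.mul_const _).intervalIntegrable _ _
      · refine Continuous.intervalIntegrable ?_ _ _
        fun_prop
    refine h1.trans ?_
    rw [intervalIntegral.integral_const_mul]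
    refine mul_le_mul_of_nonneg_left ?_ (Real.rpow_nonneg hΛ0.le _)
    rw [intervalIntegral.integral_add]
    · rw [intervalIntegral.integral_const_mul, intervalIntegral.integral_const_mul, intervalIntegral.integral_div]
      have h2 : k * ((∫ t in T..(2 * T), ‖riemannZeta (cl t)‖ ^ 2 * X t) / Λ) ≤ k * TW := by
        refine mul_le_mul_of_nonneg_left ?_ hk0.le
        rw [div_le_iff₀ hΛ0]
        linarith
      have h3 : (1 - k) * (∫ t in T..(2 * T), Y t) ≤ (1 - k) * ((1 + CY * k ^ 2) * TW) :=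
        mul_le_mul_of_nonneg_left hIY (by linarith)
      have h4 : k * TW ≤ k * ((1 + CY * k ^ 2) * TW) := by
        refine mul_le_mul_of_nonneg_left ?_ hk0.le
        have : 0 ≤ CY * k ^ 2 * TW := by positivity
        linarith
      linarith
    · refine Continuous.intervalIntegrable ?_ _ _
      fun_prop
    · refine Continuous.intervalIntegrable ?_ _ _
      fun_prop
  -- the final inequality
  have hlam : Λ ^ k ≤ 1 + M * y := lam_pow hCX hC3 hk0 hk1 hKJ hS.KJ
  have hLk : 0 < Real.log T ^ (k ^ 2) := Real.rpow_pos_of_pos hL0 _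
  set I := ∫ t in T..(2 * T), ‖riemannZeta (cl t)‖ ^ (2 * k) with hI
  have hI0 : 0 ≤ I := intervalIntegral.integral_nonneg (by linarith) fun t _ => Real.rpow_nonneg (norm_nonneg _) _
  have h1 : 1 ≤ (1 - k ^ 2 / 2) * (1 + 2 * y) := by
    have hk2 : k ^ 2 ≤ 1 := by nlinarith
    nlinarith
  have h2 : I ≤ I * (1 - k ^ 2 / 2) * (1 + 2 * y) := by
    rw [mul_assoc]
    exact le_mul_of_one_le_right hI0 h1
  have h3 : I * (1 - k ^ 2 / 2) * (1 + 2 * y) ≤ Λ ^ k * ((1 + CY * k ^ 2) * TW) * (1 + 2 * y) :=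
    mul_le_mul_of_nonneg_right hint (by linarith)
  have h4 : Λ ^ k * (1 + CY * k ^ 2) ≤ 1 + A1 * y := by
    have h5 : 1 + CY * k ^ 2 ≤ 1 + 2 * CY * y := by nlinarith
    calc Λ ^ k * (1 + CY * k ^ 2) ≤ (1 + M * y) * (1 + 2 * CY * y) := by
          refine mul_le_mul hlam h5 (by positivity) (by positivity)
      _ ≤ _ := one_add_mul_le hM0 (by positivity) hy0 hy1
  have h5 : TW ≤ (1 + 2 * CR * y) * (T * Real.log T ^ (k ^ 2)) := by
    have h6 : 1 + CR * k ^ 2 ≤ 1 + 2 * CR * y := by nlinarith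
    calc TW ≤ T * ((1 + CR * k ^ 2) * Real.log T ^ (k ^ 2)) := mul_le_mul_of_nonneg_left hW hT0.le
      _ ≤ T * ((1 + 2 * CR * y) * Real.log T ^ (k ^ 2)) := by
          refine mul_le_mul_of_nonneg_left ?_ hT0.le
          exact mul_le_mul_of_nonneg_right h6 hLk.le
      _ = _ := by ring
  calc I ≤ Λ ^ k * ((1 + CY * k ^ 2) * TW) * (1 + 2 * y) := h2.trans h3
    _ = (Λ ^ k * (1 + CY * k ^ 2)) * TW * (1 + 2 * y) := by ring
    _ ≤ (1 + A1 * y) * ((1 + 2 * CR * y) * (T * Real.log T ^ (k ^ 2))) * (1 + 2 * y) := by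
        refine mul_le_mul_of_nonneg_right ?_ (by linarith)
        exact mul_le_mul h4 h5 hTW0.le (by positivity)
    _ = ((1 + A1 * y) * (1 + 2 * CR * y)) * (1 + 2 * y) * (T * Real.log T ^ (k ^ 2)) := by ring
    _ ≤ (1 + A2 * y) * (1 + 2 * y) * (T * Real.log T ^ (k ^ 2)) := by
        refine mul_le_mul_of_nonneg_right ?_ (by positivity)
        exact mul_le_mul_of_nonneg_right (one_add_mul_le hA10 (by positivity) hy0 hy1) (by linarith)
    _ ≤ (1 + A3 * y) * (T * Real.log T ^ (k ^ 2)) := by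
        refine mul_le_mul_of_nonneg_right ?_ (by positivity)
        exact one_add_mul_le hA20 (by norm_num) hy0 hy1
    _ = _ := by rw [hy]; ring

end Pool.Agent.Q276.KZ
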